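import Pool.Agent.Helper95.GC.Bound

/-!
Cut statistics for colourings with `q` colours and the one vertex extension step.
-/

namespace Pool.Agent.Helper95.GQ

open Finset
open Pool.Agent.Helper95.GC (c2 c2_succ c2_sum_le addV IsG Iso deg Dk Dk_of okB)

section Defs
variable {q : ℕ} {V : Type} [Fintype V]

/-- degree of `v` in the cut graph of the colouring `s` -/
def dg (A : V → V → Bool) (s : V → Fin q) (v : V) : ℕ :=
  ∑ u, if A v u = true ∧ s u ≠ s v then 1 else 0

def sd (w : ℕ → ℕ) (A : V → V → Bool) (s : V → Fin q) (a : Fin q) : ℕ :=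
  ∑ v, if s v = a then w (dg A s v) else 0

/-- the state of a colouring: for every colour the sum of the cut degrees and of `C(cut degree,2)` -/
def st (A : V → V → Bool) (s : V → Fin q) : List (ℕ × ℕ) :=
  List.ofFn (fun a => (sd id A s a, sd c2 A s a))

def ext (b : Fin q) (s : V → Fin q) : Option V → Fin q := fun o => o.elim b s

@[simp] theorem ext_none (b : Fin q) (s : V → Fin q) : ext b s none = b := rfl
@[simp] theorem ext_some (b : Fin q) (s : V → Fin q) (v : V) : ext b s (some v) = s v := rfl

def PA (N : V → Bool) (s : V → Fin q) (a : Fin q) : Finset V :=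
  univ.filter (fun v => N v = true ∧ s v = a)

def PS (N : V → Bool) (s : V → Fin q) (b : Fin q) : Finset V :=
  univ.filter (fun v => N v = true ∧ s v ≠ b)

theorem sum_card_PA (N : V → Bool) (s : V → Fin q) :
    ∑ a, (PA N s a).card = (univ.filter (fun v => N v = true)).card := by
  have : ∀ a, (PA N s a).card = ∑ v, if N v = true ∧ s v = a then 1 else 0 := by
    intro a; unfold PA; rw [card_filter]
  simp_rw [this]
  rw [sum_comm, card_filter]
  apply sum_congr rfl
  intro v _
  by_cases h : N v = true
  · simp [h]
  · simp [h]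

theorem card_PS (N : V → Bool) (s : V → Fin q) (b : Fin q) :
    (PS N s b).card + (PA N s b).card = ∑ a, (PA N s a).card := by
  rw [sum_card_PA]
  unfold PS PA
  rw [card_filter, card_filter, card_filter, ← sum_add_distrib]
  apply sum_congr rfl
  intro v _
  by_cases h : N v = true <;> by_cases h2 : s v = b <;> simp [h, h2]

theorem dg_some (A : V → V → Bool) (N : V → Bool) (b : Fin q) (s : V → Fin q) (v : V) :
    dg (addV A N) (ext b s) (some v) = dg A s v + (if N v = true ∧ b ≠ s v then 1 else 0) := by
  unfold dg
  rw [Fintype.sum_option, add_comm]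
  rfl

theorem dg_none (A : V → V → Bool) (N : V → Bool) (b : Fin q) (s : V → Fin q) :
    dg (addV A N) (ext b s) none = (PS N s b).card := by
  unfold dg PS
  rw [Fintype.sum_option, card_filter]
  have h0 : (if addV A N none none = true ∧ ext b s none ≠ ext b s none then 1 else 0) = 0 := by
    simp
  rw [h0, zero_add]
  rfl

theorem sd_same (w : ℕ → ℕ) (A : V → V → Bool) (N : V → Bool) (b : Fin q) (s : V → Fin q) :
    sd w (addV A N) (ext b s) b = sd w A s b + w (PS N s b).card := by
  unfold sd
  rw [Fintype.sum_option, add_comm]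
  simp only [ext_none, ext_some, if_true, dg_none]
  congr 1
  apply sum_congr rfl
  intro v _
  by_cases h : s v = b
  · simp [h, dg_some]
  · simp [h]

theorem sd_other_id (A : V → V → Bool) (N : V → Bool) (b a : Fin q) (hab : a ≠ b) (s : V → Fin q) :
    sd id (addV A N) (ext b s) a = sd id A s a + (PA N s a).card := by
  unfold sd PA
  rw [Fintype.sum_option, card_filter, ← sum_add_distrib]
  have h0 : (if ext b s none = a then id (dg (addV A N) (ext b s) none) else 0) = 0 := by
    rw [if_neg]; simp only [ext_none]; exact fun h => hab h.symm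
  rw [h0, zero_add]
  apply sum_congr rfl
  intro v _
  simp only [ext_some, dg_some, id]
  by_cases h : s v = a
  · have hb : b ≠ s v := by rw [h]; exact fun h => hab h.symm
    by_cases hN : N v = true <;> simp [h, hN, hab.symm]
  · simp [h]

theorem sd_other_c2 (A : V → V → Bool) (N : V → Bool) (b a : Fin q) (hab : a ≠ b) (s : V → Fin q) :
    sd c2 (addV A N) (ext b s) a = sd c2 A s a + ∑ v ∈ PA N s a, dg A s v := by
  unfold sd PA
  rw [Fintype.sum_option, sum_filter, ← sum_add_distrib]
  have h0 : (if ext b s none = a then c2 (dg (addV A N) (ext b s) none) else 0) = 0 := by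
    rw [if_neg]; simp only [ext_none]; exact fun h => hab h.symm
  rw [h0, zero_add]
  apply sum_congr rfl
  intro v _
  simp only [ext_some, dg_some]
  by_cases h : s v = a
  · by_cases hN : N v = true <;> simp [h, hN, hab.symm, c2_succ]
  · simp [h]

theorem a_le (A : V → V → Bool) (N : V → Bool) (a : Fin q) (s : V → Fin q) (w : ℕ → ℕ) :
    ∑ v ∈ PA N s a, w (dg A s v) ≤ sd w A s a := by
  unfold sd PA
  rw [sum_filter]
  apply sum_le_sum
  intro v _
  by_cases h : s v = a <;> by_cases hN : N v = true <;> simp [h, hN]

theorem rest_le (A : V → V → Bool) (N : V → Bool) (a : Fin q) (s : V → Fin q) :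
    sd c2 A s a ≤ ∑ v ∈ PA N s a, c2 (dg A s v) +
      c2 (sd id A s a - ∑ v ∈ PA N s a, dg A s v) := by
  have key : ∀ w : ℕ → ℕ, sd w A s a = ∑ v ∈ PA N s a, w (dg A s v) +
      ∑ v ∈ univ.filter (fun v => s v = a ∧ ¬ (N v = true)), w (dg A s v) := by
    intro w
    unfold sd PA
    rw [sum_filter, sum_filter, ← sum_add_distrib]
    apply sum_congr rfl
    intro v _
    by_cases h : s v = a <;> by_cases hN : N v = true <;> simp [h, hN]
  rw [key c2]
  have h2 := key id
  simp only [id] at h2
  rw [h2, Nat.add_sub_cancel_left]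
  have := c2_sum_le (univ.filter (fun v => s v = a ∧ ¬ (N v = true))) (fun v => dg A s v)
  omega

theorem ok_PA (A : V → V → Bool) (N : V → Bool) (a : Fin q) (s : V → Fin q) :
    okB (PA N s a).card (∑ v ∈ PA N s a, dg A s v) (sd id A s a) (sd c2 A s a) = true := by
  unfold okB
  have h1 := a_le A N a s id
  simp only [id] at h1
  have h2 := a_le A N a s c2
  have h3 := rest_le A N a s
  rw [Bool.and_eq_true, decide_eq_true_eq, List.any_eq_true]
  refine ⟨h1, ∑ v ∈ PA N s a, c2 (dg A s v), List.mem_range.2 (by omega), ?_⟩
  rw [Dk_of]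
  simpa using h3

end Defs

/-! ### lists -/

def addO : List (ℕ × ℕ) → List (ℕ × ℕ) → List (ℕ × ℕ)
  | x :: τ, y :: o => (x.1 + y.1, x.2 + y.2) :: addO τ o
  | [], _ => []
  | _ :: _, [] => []

def upd (P : ℕ) : ℕ → List (ℕ × ℕ) → List (ℕ × ℕ) → List (ℕ × ℕ)
  | 0, x :: τ, _ :: o => (x.1 + P, x.2 + c2 P) :: addO τ o
  | b + 1, x :: τ, y :: o => (x.1 + y.1, x.2 + y.2) :: upd P b τ o
  | _, [], _ => []
  | _, _ :: _, [] => []

def E2 (τ : List (ℕ × ℕ)) : ℕ := (τ.map Prod.fst).sum

def pAt (o : List (ℕ × ℕ)) (b : ℕ) : ℕ := (o.getD b (0, 0)).1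

def tgt (τ o : List (ℕ × ℕ)) (b : ℕ) : List (ℕ × ℕ) := upd (E2 o - pAt o b) b τ o

theorem addO_length (τ o : List (ℕ × ℕ)) (h : τ.length = o.length) :
    (addO τ o).length = τ.length := by
  induction τ generalizing o with
  | nil => rfl
  | cons x τ ih =>
    cases o with
    | nil => simp at h
    | cons y o => simp only [addO, List.length_cons]; rw [ih o (by simpa using h)]

theorem addO_get (τ o : List (ℕ × ℕ)) (h : τ.length = o.length) (i : ℕ) (h1 : i < τ.length)
    (h2 : i < o.length) (h3 : i < (addO τ o).length) :
    (addO τ o)[i] = (τ[i].1 + o[i].1, τ[i].2 + o[i].2) := by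
  induction τ generalizing o i with
  | nil => simp at h1
  | cons x τ ih =>
    cases o with
    | nil => simp at h
    | cons y o =>
      cases i with
      | zero => rfl
      | succ i =>
        simp only [addO, List.getElem_cons_succ]
        exact ih o (by simpa using h) i (by simpa using h1) (by simpa using h2) _

theorem upd_length (P b : ℕ) (τ o : List (ℕ × ℕ)) (h : τ.length = o.length) :
    (upd P b τ o).length = τ.length := by
  induction τ generalizing o b with
  | nil => cases b <;> rfl
  | cons x τ ih =>
    cases o with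
    | nil => simp at h
    | cons y o =>
      have h' : τ.length = o.length := by simpa using h
      cases b with
      | zero => simp only [upd, List.length_cons]; rw [addO_length τ o h']
      | succ b => simp only [upd, List.length_cons]; rw [ih b o h']

theorem upd_get (P b : ℕ) (τ o : List (ℕ × ℕ)) (h : τ.length = o.length) (i : ℕ)
    (h1 : i < τ.length) (h2 : i < o.length) (h3 : i < (upd P b τ o).length) :
    (upd P b τ o)[i] = if i = b then (τ[i].1 + P, τ[i].2 + c2 P)
      else (τ[i].1 + o[i].1, τ[i].2 + o[i].2) := by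
  induction τ generalizing o b i with
  | nil => simp at h1
  | cons x τ ih =>
    cases o with
    | nil => simp at h
    | cons y o =>
      have h' : τ.length = o.length := by simpa using h
      cases b with
      | zero =>
        cases i with
        | zero => simp [upd]
        | succ i =>
          simp only [upd, List.getElem_cons_succ]
          rw [addO_get τ o h' i (by simpa using h1) (by simpa using h2)]
          simp
      | succ b =>
        cases i with
        | zero => simp [upd]
        | succ i =>
          simp only [upd, List.getElem_cons_succ]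
          rw [ih b o h' i (by simpa using h1) (by simpa using h2)]
          simp

theorem upd_congr (P b : ℕ) (τ o o' : List (ℕ × ℕ)) (h : τ.length = o.length)
    (h' : τ.length = o'.length)
    (he : ∀ i (h1 : i < o.length) (h2 : i < o'.length), i ≠ b → o[i] = o'[i]) :
    upd P b τ o = upd P b τ o' := by
  apply List.ext_getElem
  · rw [upd_length P b τ o h, upd_length P b τ o' h']
  · intro i h1 h2
    rw [upd_length P b τ o h] at h1
    rw [upd_get P b τ o h i h1 (by omega), upd_get P b τ o' h' i h1 (by omega)]
    by_cases hi : i = b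
    · simp [hi]
    · rw [if_neg hi, if_neg hi, he i (by omega) (by omega) hi]

section St
variable {q : ℕ} {V : Type} [Fintype V]

/-- the actual move -/
def oL (A : V → V → Bool) (N : V → Bool) (s : V → Fin q) : List (ℕ × ℕ) :=
  List.ofFn (fun a => ((PA N s a).card, ∑ v ∈ PA N s a, dg A s v))

theorem E2_oL (A : V → V → Bool) (N : V → Bool) (s : V → Fin q) :
    E2 (oL A N s) = ∑ a, (PA N s a).card := by
  unfold E2 oL
  rw [List.map_ofFn, List.sum_ofFn]
  rfl

theorem pAt_ofFn (f : Fin q → ℕ × ℕ) (b : Fin q) : pAt (List.ofFn f) b = (f b).1 := by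
  unfold pAt
  rw [List.getD_eq_getElem?_getD, List.getElem?_ofFn]
  simp

theorem st_ext (A : V → V → Bool) (N : V → Bool) (s : V → Fin q) (b : Fin q) :
    st (addV A N) (ext b s) = tgt (st A s) (oL A N s) b := by
  unfold tgt
  have hP : E2 (oL A N s) - pAt (oL A N s) b = (PS N s b).card := by
    rw [E2_oL, oL, pAt_ofFn]
    have := card_PS N s b
    simp only
    omega
  rw [hP]
  have hl : (st A s).length = (oL A N s).length := by simp [st, oL]
  apply List.ext_getElem
  · rw [upd_length _ _ _ _ hl]; simp [st]
  · intro i h1 h2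
    have hi : i < q := by simpa [st] using h1
    rw [upd_get _ _ _ _ hl i (by simpa [st] using hi) (by simpa [oL] using hi)]
    simp only [st, oL, List.getElem_ofFn]
    by_cases hb : i = (b : ℕ)
    · rw [if_pos hb]
      have hb' : (⟨i, hi⟩ : Fin q) = b := Fin.ext hb
      rw [hb', sd_same, sd_same]
      rfl
    · rw [if_neg hb]
      have hb' : (⟨i, hi⟩ : Fin q) ≠ b := fun h => hb (Fin.val_eq_of_eq h)
      rw [sd_other_id A N b _ hb', sd_other_c2 A N b _ hb']

end St

theorem upd_E2 (P b : ℕ) (τ o : List (ℕ × ℕ)) (h : τ.length = o.length) (hb : b < τ.length) :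
    E2 (upd P b τ o) + pAt o b = E2 τ + E2 o + P := by
  have hadd : ∀ (τ o : List (ℕ × ℕ)), τ.length = o.length → E2 (addO τ o) = E2 τ + E2 o := by
    intro τ
    induction τ with
    | nil =>
      intro o h
      have : o = [] := List.length_eq_zero_iff.1 h.symm
      subst this; rfl
    | cons x τ ih =>
      intro o h
      cases o with
      | nil => simp at h
      | cons y o =>
        have := ih o (by simpa using h)
        unfold E2 at this ⊢
        simp only [addO, List.map_cons, List.sum_cons]
        omega
  induction τ generalizing o b with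
  | nil => simp at hb
  | cons x τ ih =>
    cases o with
    | nil => simp at h
    | cons y o =>
      have h' : τ.length = o.length := by simpa using h
      cases b with
      | zero =>
        have := hadd τ o h'
        unfold E2 at this ⊢
        unfold pAt
        simp only [upd, List.map_cons, List.sum_cons, List.getD_cons_zero]
        omega
      | succ b =>
        have := ih b o h' (by simpa using hb)
        unfold E2 pAt at this ⊢
        simp only [upd, List.map_cons, List.sum_cons, List.getD_cons_succ]
        omega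

section St2
variable {q : ℕ} {V : Type} [Fintype V]

theorem E2_ext (A : V → V → Bool) (N : V → Bool) (s : V → Fin q) (b : Fin q) :
    E2 (st (addV A N) (ext b s)) = E2 (st A s) + 2 * (PS N s b).card := by
  have hP : E2 (oL A N s) - pAt (oL A N s) b = (PS N s b).card := by
    rw [E2_oL, oL, pAt_ofFn]
    have := card_PS N s b
    simp only
    omega
  have hp2 : pAt (oL A N s) b = (PA N s b).card := by rw [oL, pAt_ofFn]
  rw [st_ext]
  unfold tgt
  rw [hP]
  have hl : (st A s).length = (oL A N s).length := by simp [st, oL]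
  have := upd_E2 (PS N s b).card b (st A s) (oL A N s) hl (by simp [st])
  rw [hp2, E2_oL] at this
  have h3 := card_PS N s b
  omega

end St2

/-! ### isomorphism and sums -/

section Iso
variable {q : ℕ} {V W : Type} [Fintype V] [Fintype W]

theorem dg_iso {A : V → V → Bool} {B : W → W → Bool} (e : V ≃ W)
    (he : ∀ u v, A u v = B (e u) (e v)) (s : W → Fin q) (v : V) :
    dg A (s ∘ e) v = dg B s (e v) := by
  unfold dg
  apply Fintype.sum_equiv e
  intro u
  simp [he]

theorem sd_iso {A : V → V → Bool} {B : W → W → Bool} (e : V ≃ W)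
    (he : ∀ u v, A u v = B (e u) (e v)) (s : W → Fin q) (w : ℕ → ℕ) (b : Fin q) :
    sd w A (s ∘ e) b = sd w B s b := by
  unfold sd
  apply Fintype.sum_equiv e
  intro v
  simp [dg_iso e he]

theorem st_iso {A : V → V → Bool} {B : W → W → Bool} (e : V ≃ W)
    (he : ∀ u v, A u v = B (e u) (e v)) (s : W → Fin q) : st A (s ∘ e) = st B s := by
  simp [st, sd_iso e he]

end Iso

section Sum
variable {q : ℕ} {V W : Type} [Fintype V] [DecidableEq V] [Fintype W] [DecidableEq W]

variable (q) in
def SS (A : V → V → Bool) (F : List (ℕ × ℕ) → ℤ) : ℤ := ∑ s : V → Fin q, F (st A s)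

theorem SS_iso {A : V → V → Bool} {B : W → W → Bool}
    (h : Iso A B) (F : List (ℕ × ℕ) → ℤ) : SS q A F = SS q B F := by
  obtain ⟨e, he⟩ := h
  unfold SS
  symm
  apply Fintype.sum_equiv (Equiv.arrowCongr e.symm (Equiv.refl (Fin q)))
  intro s
  rw [← st_iso e he s]
  rfl

theorem sum_option_fun {M : Type} [AddCommMonoid M] (F : (Option V → Fin q) → M) :
    ∑ s : Option V → Fin q, F s = ∑ s : V → Fin q, ∑ b : Fin q, F (ext b s) := by
  have e1 : ∑ s : Option V → Fin q, F s = ∑ x : Fin q × (V → Fin q), F (ext x.1 x.2) := by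
    symm
    apply Fintype.sum_equiv (Equiv.piOptionEquivProd (β := fun _ : Option V => Fin q)).symm
    intro x
    congr 1
    funext o
    cases o <;> rfl
  rw [e1, Fintype.sum_prod_type, sum_comm]

theorem SS_addV (A : V → V → Bool) (N : V → Bool) (F : List (ℕ × ℕ) → ℤ) :
    SS q (addV A N) F = ∑ s : V → Fin q, ∑ b : Fin q, F (st (addV A N) (ext b s)) := by
  unfold SS
  rw [sum_option_fun]

theorem st_addV_empty (A : V → V → Bool) (s : V → Fin q) (b : Fin q) :
    st (addV A (fun _ => false)) (ext b s) = st A s := by
  have h0 : ∀ b, PS (fun _ : V => false) s b = ∅ := by intro b; simp [PS]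
  have h1 : ∀ a, PA (fun _ : V => false) s a = ∅ := by intro b; simp [PA]
  unfold st
  congr 1
  funext a
  by_cases hab : a = b
  · subst hab
    rw [sd_same, sd_same, h0]
    simp [c2]
  · rw [sd_other_id _ _ b a hab, sd_other_c2 _ _ b a hab, h1]
    simp

theorem SS_addV_empty (A : V → V → Bool) (F : List (ℕ × ℕ) → ℤ) :
    SS q (addV A (fun _ => false)) F = q * SS q A F := by
  rw [SS_addV]
  unfold SS
  rw [mul_sum]
  apply sum_congr rfl
  intro s _
  simp_rw [st_addV_empty]
  simp

end Sum

end Pool.Agent.Helper95.GQ
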