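import Pool.Agent.Helper95.GQ.Main

/-!
Final bound for all graphs (three colours).
-/

namespace Pool.Agent.Helper95.GQ

open Finset
open Pool.Agent.Helper95.GC (addV IsG Iso deg GF Dt Tr find allT allT_find dec dec_length rm nb
  rm_isG card_rm peel_iso deg_rm deg_rm_none addK addV_congr addV_rm_eq)

theorem claim_all {p : Par} (hp : p.OK) {T : Tr} (hT : allT (chk p T) T = true)
    (hroot : ∃ m d, find T 0 = some (0, m, d)) : ∀ k : ℕ, ∀ (V : Type) [Fintype V] [DecidableEq V],
    Fintype.card V = k → ∀ A : V → V → Bool, IsG A → (∀ v, 1 ≤ deg A v) → Claim p T A := by
  intro k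
  induction k using Nat.strong_induction_on with
  | _ k ih =>
    intro V _ _ hk A hA hdeg
    by_cases hk0 : k = 0
    · left
      obtain ⟨m, d, hf⟩ := hroot
      refine ⟨0, _, hf, ?_⟩
      haveI : IsEmpty V := Fintype.card_eq_zero_iff.1 (by omega)
      haveI : IsEmpty (Fin (dec 0 m).length) := by
        rw [dec_length]; infer_instance
      exact ⟨Equiv.equivOfIsEmpty _ _, fun u => isEmptyElim u⟩
    · have hne : Nonempty V := Fintype.card_pos_iff.1 (by omega)
      obtain ⟨x, _, hx⟩ := exists_min_image (univ : Finset V) (deg A) univ_nonempty
      have hx : ∀ v, deg A x ≤ deg A v := fun v => hx v (mem_univ v)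
      have hA' := rm_isG hA x
      have hcard : Fintype.card {v : V // v ≠ x} = k - 1 := by rw [card_rm, hk]
      by_cases hiso : ∀ w, 1 ≤ deg (rm A x) w
      · have hC := ih (k - 1) (by omega) _ hcard (rm A x) hA' hiso
        apply Claim.iso (peel_iso hA x)
        apply claim_step hp hT hA' hC
        · have h1 := hdeg x
          rw [deg_rm_none hA x] at h1
          by_contra hno
          push Not at hno
          have : (∑ u, if nb A x u = true then 1 else 0) = 0 := by
            apply sum_eq_zero
            intro u _
            rw [if_neg (hno u)]
          omega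
        · intro w
          rw [← deg_rm_none hA x, ← deg_rm hA x w]
          exact hx _
      · push Not at hiso
        obtain ⟨w, hw⟩ := hiso
        have hw0 : deg (rm A x) w = 0 := by omega
        have h1 := hdeg w.1
        rw [deg_rm hA x w, hw0, zero_add] at h1
        have hNw : nb A x w = true := by
          cases h : nb A x w
          · rw [h] at h1; simp at h1
          · rfl
        have hdx : deg A x ≤ 1 := by
          have := hx w.1
          rw [deg_rm hA x w, hw0, hNw] at this
          simpa using this
        have hNu : ∀ u, u ≠ w → nb A x u = false := by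
          intro u hu
          by_contra hno
          have hno : nb A x u = true := by simpa using hno
          rw [deg_rm_none hA x] at hdx
          have h2 : ∑ v ∈ ({u, w} : Finset {v : V // v ≠ x}), (if nb A x v = true then 1 else 0) ≤
              ∑ v, (if nb A x v = true then 1 else 0) :=
            sum_le_sum_of_subset (subset_univ _)
          rw [sum_pair hu, if_pos hno, if_pos hNw] at h2
          omega
        have hA'' := rm_isG hA' w
        have hnb2 : nb (rm A x) w = fun _ => false := by
          funext u
          have h3 := deg_rm_none hA' w
          rw [hw0] at h3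
          have h4 := (sum_eq_zero_iff.1 h3.symm) u (mem_univ u)
          by_contra hno
          have hno : nb (rm A x) w u = true := by simpa using hno
          rw [if_pos hno] at h4
          omega
        have hdeg2 : ∀ u, 1 ≤ deg (rm (rm A x) w) u := by
          intro u
          have h5 := deg_rm hA' w u
          rw [hnb2] at h5
          simp only [Bool.toNat_false, add_zero] at h5
          have h6 := deg_rm hA x u.1
          rw [hNu u.1 u.2] at h6
          simp only [Bool.toNat_false, add_zero] at h6
          have h7 := hdeg u.1.1
          omega
        have hk2 : Fintype.card {v : {v : V // v ≠ x} // v ≠ w} = k - 2 := by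
          rw [card_rm, hcard]; omega
        have hC := ih (k - 2) (by omega) _ hk2 (rm (rm A x) w) hA'' hdeg2
        have hC2 := claim_k2 hp hT hA'' hC
        refine Claim.iso (B := addK (rm (rm A x) w)) ?_ hC2
        refine (peel_iso hA x).trans ?_
        apply Iso.symm
        have he : ∀ u v, addV (rm (rm A x) w) (fun _ => false) u v =
            rm A x (Equiv.optionSubtypeNe w u) (Equiv.optionSubtypeNe w v) := by
          intro u v
          rw [← addV_rm_eq hA' w u v, hnb2]
        unfold addK
        apply addV_congr (Equiv.optionSubtypeNe w) he
        intro v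
        cases v with
        | none => simp [hNw]
        | some v =>
          rw [Equiv.optionSubtypeNe_some, hNu v.1 v.2]
          rfl

theorem bound_all {p : Par} (hp : p.OK) {T : Tr} (hT : allT (chk p T) T = true)
    (hroot : ∃ m d, find T 0 = some (0, m, d)) : ∀ k : ℕ, ∀ (V : Type) [Fintype V] [DecidableEq V],
    Fintype.card V = k → ∀ A : V → V → Bool, IsG A → (∃ u v, A u v = true) →
    SS 3 A (ex p.KK p.phi) ≤ p.AA * 3 ^ k ∧ - SS 3 A (ex p.KK p.phi) ≤ p.AA * 3 ^ k := by
  intro k
  induction k with
  | zero =>
    intro V _ _ hk A _ hne
    obtain ⟨u, _⟩ := hne
    haveI : IsEmpty V := Fintype.card_eq_zero_iff.1 hk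
    exact isEmptyElim u
  | succ k ih =>
    intro V _ _ hk A hA hne
    by_cases hdeg : ∀ v, 1 ≤ deg A v
    · rcases claim_all hp hT hroot (k + 1) V hk A hA hdeg with ⟨t, ⟨n, m, d⟩, hf, hiso⟩ | hG
      · have hck := allT_find _ T hT t _ hf
        simp only at hck hiso
        have hn : n = k + 1 := by
          have := hiso.card
          rw [hk, Fintype.card_fin, dec_length] at this
          exact this.symm
        have := chk_exact hp hck (by omega)
        rw [SS_iso hiso, ← hn]
        exact this
      · obtain ⟨_, h1, h2⟩ := hG
        rw [hk] at h1 h2
        exact ⟨h1, h2⟩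
    · push Not at hdeg
      obtain ⟨x, hx⟩ := hdeg
      have hx0 : deg A x = 0 := by omega
      have hnb : nb A x = fun _ => false := by
        funext u
        have h3 := deg_rm_none hA x
        rw [hx0] at h3
        have h4 := (sum_eq_zero_iff.1 h3.symm) u (mem_univ u)
        by_contra hno
        have hno : nb A x u = true := by simpa using hno
        rw [if_pos hno] at h4
        omega
      have hiso := peel_iso hA x
      rw [hnb] at hiso
      have hcard : Fintype.card {v : V // v ≠ x} = k := by rw [card_rm, hk]; omega
      have hne' : ∃ u v, rm A x u v = true := by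
        obtain ⟨u, v, huv⟩ := hne
        have hux : u ≠ x := by
          rintro rfl
          by_cases hv : v = u
          · subst hv; rw [hA.irr] at huv; simp at huv
          · have := congrFun hnb ⟨v, hv⟩
            unfold nb at this
            simp only at this
            rw [huv] at this; simp at this
        have hvx : v ≠ x := by
          rintro rfl
          have := congrFun hnb ⟨u, hux⟩
          unfold nb at this
          simp only at this
          rw [hA.symm, huv] at this; simp at this
        exact ⟨⟨u, hux⟩, ⟨v, hvx⟩, huv⟩
      have := ih _ hcard (rm A x) (rm_isG hA x) hne'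
      rw [SS_iso hiso, SS_addV_empty, pow_succ]
      push_cast
      constructor <;> linarith [this.1, this.2]

end Pool.Agent.Helper95.GQ
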