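import Pool.Agent.Helper95.GQ.ETree

/-!
Kernel check of the tree, part 0.
-/

namespace Pool.Agent.Helper95.GQ.E

open Pool.Agent.Helper95.GC (Tr Dt allT)

theorem cT53 : allT (chk par T) T53 = true := by decide +kernel

theorem cT70 : allT (chk par T) T70 = true := by decide +kernel

theorem cT58 : allT (chk par T) T58 = true := by decide +kernel

theorem cT8 : allT (chk par T) T8 = true := by decide +kernel

theorem cT3 : allT (chk par T) T3 = true := by decide +kernel

theorem hT69 : chk par T 10 340292751831573018952754453614434451457 .pr = true := by decide +kernel

theorem cT51 : allT (chk par T) T51 = true := by decide +kernel

theorem cT59 : allT (chk par T) T59 = true := by decide +kernel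

theorem cT18 : allT (chk par T) T18 = true := by decide +kernel

theorem hT75 : chk par T 9 5192455319695707014120526860779584 .pr = true := by decide +kernel

theorem hT64 : chk par T 8 79230580439692795015266828320 (.ex 2812431594242697658368 [156100447564097388672, 156100447628522029120, 156100447628522094624, 156032893634111537168, 156024449384810217480, 156023657736438218756, 156023591765740552194, 156023586611779862529]) = true := by decide +kernel

theorem hT14 : chk par T 7 1208962714228710860390401 (.ex 156100447628506759168 [8526493879188783168, 8526493879189045280, 8458939884778487824, 8450495635477168136, 8449703987105169412, 8526495038830280706, 8526494008038129665]) = true := by decide +kernel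

theorem hT78 : chk par T 8 79230580439691669080998674440 .pr = true := by decide +kernel

theorem hT5 : chk par T 6 18447588524409487361 (.ex 8526495038828642304 [456043346938560544, 388489352528003088, 456043346939346952, 455779464148680708, 456044506580582402, 456043475788431361, 456044506580647939]) = true := by decide +kernel

theorem hT30 : chk par T 6 18447588515819814914 (.ex 8526495038837096448 [456043346947080224, 388490447753248784, 456044442164330504, 456044506588971012, 456044506589036546, 456043475796951041, 456044506583662595]) = true := by decide +kernel

theorem hT55 : chk par T 8 79231789291723462968929943553 .pr = true := by decide +kernel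

theorem hT33 : chk par T 7 1208962713947235884793872 .pr = true := by decide +kernel

theorem hT12 : chk par T 6 18447307036548268051 .pr = true := by decide +kernel

end Pool.Agent.Helper95.GQ.E
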