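import Pool.Agent.Helper95.GQ.ETree

/-!
Kernel check of the tree, part 1.
-/

namespace Pool.Agent.Helper95.GQ.E

open Pool.Agent.Helper95.GC (Tr Dt allT)

theorem hT37 : chk par T 11 22301425763264544246625177732944896590872577 .pr = true := by decide +kernel

theorem cT19 : allT (chk par T) T19 = true := by decide +kernel

theorem cT26 : allT (chk par T) T26 = true := by decide +kernel

theorem cT11 : allT (chk par T) T11 = true := by decide +kernel

theorem cT35 : allT (chk par T) T35 = true := by decide +kernel

theorem cT66 : allT (chk par T) T66 = true := by decide +kernel

theorem cT1 : allT (chk par T) T1 = true := by decide +kernel

theorem cT25 : allT (chk par T) T25 = true := by decide +kernel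

theorem cT43 : allT (chk par T) T43 = true := by decide +kernel

theorem cT0 : allT (chk par T) T0 = true := by decide +kernel

theorem cT50 : allT (chk par T) T50 = true := by decide +kernel

theorem cT16 : allT (chk par T) T16 = true := by decide +kernel

theorem cT10 : allT (chk par T) T10 = true := by decide +kernel

theorem hT54 : chk par T 9 5192534543022388869131792780623873 .pr = true := by decide +kernel

theorem hT29 : chk par T 7 1208962714228710861439008 (.ex 156100447628517638144 [8526495038841094208, 8526495038841159712, 8458941044430602256, 8450496795129282568, 8449705146757283844, 8449639176059617282, 8449634022098862081]) = true := by decide +kernel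

theorem hT77 : chk par T 8 79230580402797617957855952899 .pr = true := by decide +kernel

theorem hT49 : chk par T 8 79231789365512409610079698945 .pr = true := by decide +kernel

theorem hT17 : chk par T 6 18447588524410011664 (.ex 8526495038839586816 [456044506591395872, 456044506591461392, 456044506591526920, 455780623800860676, 456044506591592450, 456043475799441409, 456044506586415107]) = true := by decide +kernel

theorem hT6 : chk par T 6 18447307023663038466 (.ex 8526495038826086400 [456025759043420192, 456025759044010000, 451803634393350152, 148730126143979524, 148730126144569346, 148729095352418305]) = true := by decide +kernel

theorem hT79 : chk par T 7 1208981161535734524411906 .pr = true := by decide +kernel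

theorem hT13 : chk par T 6 18447588515819880452 .pr = true := by decide +kernel

end Pool.Agent.Helper95.GQ.E
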