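import Pool.Agent.Helper95.GQ.ETree

/-!
Kernel check of the tree, part 2.
-/

namespace Pool.Agent.Helper95.GQ.E

open Pool.Agent.Helper95.GC (Tr Dt allT)

theorem cT65 : allT (chk par T) T65 = true := by decide +kernel

theorem cT60 : allT (chk par T) T60 = true := by decide +kernel

theorem cT67 : allT (chk par T) T67 = true := by decide +kernel

theorem cT22 : allT (chk par T) T22 = true := by decide +kernel

theorem cT71 : allT (chk par T) T71 = true := by decide +kernel

theorem cT15 : allT (chk par T) T15 = true := by decide +kernel

theorem cT42 : allT (chk par T) T42 = true := by decide +kernel

theorem hT61 : chk par T 10 340292751831577854582246217315566747649 .pr = true := by decide +kernel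

theorem hT68 : chk par T 10 340287559534719319828404381634804056065 .pr = true := by decide +kernel

theorem cT45 : allT (chk par T) T45 = true := by decide +kernel

theorem hT74 : chk par T 10 340292751831577854877402848348046622721 .pr = true := by decide +kernel

theorem hT56 : chk par T 9 5192534543022388868850317803913217 .pr = true := by decide +kernel

theorem cT36 : allT (chk par T) T36 = true := by decide +kernel

theorem hT24 : chk par T 8 79230580439691669063818280961 (.ex 2812431594242695495680 [156100147410304499840, 156100428880987160640, 155019037204836909088, 156100446468878499856, 156096224344228102152, 155014832668077850628, 156100447628519997442, 156100446597727846401]) = true := by decide +kernel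

theorem hT9 : chk par T 7 1208962713665739432132609 (.ex 156100447628508987392 [8526493879191208000, 7441407843971629088, 7238218095158624272, 5059601775418146824, 4856412026605142020, 8526495038832443394, 8526494008040292353, 8526495038832508931]) = true := by decide +kernel

theorem hT63 : chk par T 8 79230580402799306867846152200 .pr = true := by decide +kernel

theorem hT39 : chk par T 7 1208981160972784570990596 (.ex 156100447628521766912 [8526494974420189248, 8526494974420451360, 8458940980009893904, 8450496795133280264, 8526495038845222916, 8526478546170806274, 8526476484586569729]) = true := by decide +kernel

theorem hT21 : chk par T 6 18447588520114782216 (.ex 8526495038840176640 [456044506591985696, 456044506592051216, 312492268469551112, 456044506592116740, 456044506592182274, 456043475800031233, 388490512176054275]) = true := by decide +kernel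

theorem hT2 : chk par T 5 281487861612545 (.ex 456044506575077376 [23697782705356816, 19475658054696968, 18947892473364484, 23698942347378690, 23697911555227649, 23698942347444227]) = true := by decide +kernel

theorem hT48 : chk par T 7 1208981161254242366849027 .pr = true := by decide +kernel

theorem hT20 : chk par T 7 1208981161817209500073985 .pr = true := by decide +kernel

end Pool.Agent.Helper95.GQ.E
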