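import Pool.Agent.Helper95.GQ.ETree

/-!
Kernel check of the tree, part 3.
-/

namespace Pool.Agent.Helper95.GQ.E

open Pool.Agent.Helper95.GC (Tr Dt allT)

theorem cT23 : allT (chk par T) T23 = true := by decide +kernel

theorem cT57 : allT (chk par T) T57 = true := by decide +kernel

theorem cT73 : allT (chk par T) T73 = true := by decide +kernel

theorem cT34 : allT (chk par T) T34 = true := by decide +kernel

theorem cT46 : allT (chk par T) T46 = true := by decide +kernel

theorem cT7 : allT (chk par T) T7 = true := by decide +kernel

theorem cT4 : allT (chk par T) T4 = true := by decide +kernel

theorem hT40 : chk par T 10 340292751752340020679871425283063021569 .pr = true := by decide +kernel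

theorem hT62 : chk par T 10 340292751831577854729819888425971482625 .pr = true := by decide +kernel

theorem cT31 : allT (chk par T) T31 = true := by decide +kernel

theorem cT72 : allT (chk par T) T72 = true := by decide +kernel

theorem cT32 : allT (chk par T) T32 = true := by decide +kernel

theorem cT38 : allT (chk par T) T38 = true := by decide +kernel

theorem cT52 : allT (chk par T) T52 = true := by decide +kernel

theorem hT28 : chk par T 8 79230580402797617957855821825 .pr = true := by decide +kernel

theorem hT41 : chk par T 8 79230580421246050872835768322 .pr = true := by decide +kernel

theorem hT44 : chk par T 8 79231789365511283675813183490 .pr = true := by decide +kernel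

theorem hT76 : chk par T 8 79231789365512409644439699460 .pr = true := by decide +kernel

theorem hT80 : chk par T 7 1208962713947235884728322 .pr = true := by decide +kernel

theorem hT27 : chk par T 7 1208962713665739433181217 .pr = true := by decide +kernel

theorem hT47 : chk par T 7 1208981160972788865433604 .pr = true := by decide +kernel

end Pool.Agent.Helper95.GQ.E
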