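import Pool.Agent.Helper95.GQ.EC0
import Pool.Agent.Helper95.GQ.EC1
import Pool.Agent.Helper95.GQ.EC2
import Pool.Agent.Helper95.GQ.EC3

/-!
Kernel check of the tree.
-/

namespace Pool.Agent.Helper95.GQ.E

open Pool.Agent.Helper95.GC (Tr Dt allT)

theorem cT2 : allT (chk par T) T2 = true := by
  show (allT (chk par T) T0 && (chk par T 5 281487861612545 (.ex 456044506575077376 [23697782705356816, 19475658054696968, 18947892473364484, 23698942347378690, 23697911555227649, 23698942347444227]) && allT (chk par T) T1)) = true
  rw [cT0, cT1, hT2]; rfl

theorem cT5 : allT (chk par T) T5 = true := by
  show (allT (chk par T) T3 && (chk par T 6 18447588524409487361 (.ex 8526495038828642304 [456043346938560544, 388489352528003088, 456043346939346952, 455779464148680708, 456044506580582402, 456043475788431361, 456044506580647939]) && allT (chk par T) T4)) = true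
  rw [cT3, cT4, hT5]; rfl

theorem cT6 : allT (chk par T) T6 = true := by
  show (allT (chk par T) T2 && (chk par T 6 18447307023663038466 (.ex 8526495038826086400 [456025759043420192, 456025759044010000, 451803634393350152, 148730126143979524, 148730126144569346, 148729095352418305]) && allT (chk par T) T5)) = true
  rw [cT2, cT5, hT6]; rfl

theorem cT9 : allT (chk par T) T9 = true := by
  show (allT (chk par T) T7 && (chk par T 7 1208962713665739432132609 (.ex 156100447628508987392 [8526493879191208000, 7441407843971629088, 7238218095158624272, 5059601775418146824, 4856412026605142020, 8526495038832443394, 8526494008040292353, 8526495038832508931]) && allT (chk par T) T8)) = true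
  rw [cT7, cT8, hT9]; rfl

theorem cT12 : allT (chk par T) T12 = true := by
  show (allT (chk par T) T10 && (chk par T 6 18447307036548268051 .pr && allT (chk par T) T11)) = true
  rw [cT10, cT11, hT12]; rfl

theorem cT13 : allT (chk par T) T13 = true := by
  show (allT (chk par T) T9 && (chk par T 6 18447588515819880452 .pr && allT (chk par T) T12)) = true
  rw [cT9, cT12, hT13]; rfl

theorem cT14 : allT (chk par T) T14 = true := by
  show (allT (chk par T) T6 && (chk par T 7 1208962714228710860390401 (.ex 156100447628506759168 [8526493879188783168, 8526493879189045280, 8458939884778487824, 8450495635477168136, 8449703987105169412, 8526495038830280706, 8526494008038129665]) && allT (chk par T) T13)) = true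
  rw [cT6, cT13, hT14]; rfl

theorem cT17 : allT (chk par T) T17 = true := by
  show (allT (chk par T) T15 && (chk par T 6 18447588524410011664 (.ex 8526495038839586816 [456044506591395872, 456044506591461392, 456044506591526920, 455780623800860676, 456044506591592450, 456043475799441409, 456044506586415107]) && allT (chk par T) T16)) = true
  rw [cT15, cT16, hT17]; rfl

theorem cT20 : allT (chk par T) T20 = true := by
  show (allT (chk par T) T18 && (chk par T 7 1208981161817209500073985 .pr && allT (chk par T) T19)) = true
  rw [cT18, cT19, hT20]; rfl

theorem cT21 : allT (chk par T) T21 = true := by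
  show (allT (chk par T) T17 && (chk par T 6 18447588520114782216 (.ex 8526495038840176640 [456044506591985696, 456044506592051216, 312492268469551112, 456044506592116740, 456044506592182274, 456043475800031233, 388490512176054275]) && allT (chk par T) T20)) = true
  rw [cT17, cT20, hT21]; rfl

theorem cT24 : allT (chk par T) T24 = true := by
  show (allT (chk par T) T22 && (chk par T 8 79230580439691669063818280961 (.ex 2812431594242695495680 [156100147410304499840, 156100428880987160640, 155019037204836909088, 156100446468878499856, 156096224344228102152, 155014832668077850628, 156100447628519997442, 156100446597727846401]) && allT (chk par T) T23)) = true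
  rw [cT22, cT23, hT24]; rfl

theorem cT27 : allT (chk par T) T27 = true := by
  show (allT (chk par T) T25 && (chk par T 7 1208962713665739433181217 .pr && allT (chk par T) T26)) = true
  rw [cT25, cT26, hT27]; rfl

theorem cT28 : allT (chk par T) T28 = true := by
  show (allT (chk par T) T24 && (chk par T 8 79230580402797617957855821825 .pr && allT (chk par T) T27)) = true
  rw [cT24, cT27, hT28]; rfl

theorem cT29 : allT (chk par T) T29 = true := by
  show (allT (chk par T) T21 && (chk par T 7 1208962714228710861439008 (.ex 156100447628517638144 [8526495038841094208, 8526495038841159712, 8458941044430602256, 8450496795129282568, 8449705146757283844, 8449639176059617282, 8449634022098862081]) && allT (chk par T) T28)) = true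
  rw [cT21, cT28, hT29]; rfl

theorem cT30 : allT (chk par T) T30 = true := by
  show (allT (chk par T) T14 && (chk par T 6 18447588515819814914 (.ex 8526495038837096448 [456043346947080224, 388490447753248784, 456044442164330504, 456044506588971012, 456044506589036546, 456043475796951041, 456044506583662595]) && allT (chk par T) T29)) = true
  rw [cT14, cT29, hT30]; rfl

theorem cT33 : allT (chk par T) T33 = true := by
  show (allT (chk par T) T31 && (chk par T 7 1208962713947235884793872 .pr && allT (chk par T) T32)) = true
  rw [cT31, cT32, hT33]; rfl

theorem cT37 : allT (chk par T) T37 = true := by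
  show (allT (chk par T) T35 && (chk par T 11 22301425763264544246625177732944896590872577 .pr && allT (chk par T) T36)) = true
  rw [cT35, cT36, hT37]; rfl

theorem cT39 : allT (chk par T) T39 = true := by
  show (allT (chk par T) T37 && (chk par T 7 1208981160972784570990596 (.ex 156100447628521766912 [8526494974420189248, 8526494974420451360, 8458940980009893904, 8450496795133280264, 8526495038845222916, 8526478546170806274, 8526476484586569729]) && allT (chk par T) T38)) = true
  rw [cT37, cT38, hT39]; rfl

theorem cT40 : allT (chk par T) T40 = true := by
  show (allT (chk par T) T34 && (chk par T 10 340292751752340020679871425283063021569 .pr && allT (chk par T) T39)) = true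
  rw [cT34, cT39, hT40]; rfl

theorem cT41 : allT (chk par T) T41 = true := by
  show (allT (chk par T) T33 && (chk par T 8 79230580421246050872835768322 .pr && allT (chk par T) T40)) = true
  rw [cT33, cT40, hT41]; rfl

theorem cT44 : allT (chk par T) T44 = true := by
  show (allT (chk par T) T42 && (chk par T 8 79231789365511283675813183490 .pr && allT (chk par T) T43)) = true
  rw [cT42, cT43, hT44]; rfl

theorem cT47 : allT (chk par T) T47 = true := by
  show (allT (chk par T) T45 && (chk par T 7 1208981160972788865433604 .pr && allT (chk par T) T46)) = true
  rw [cT45, cT46, hT47]; rfl

theorem cT48 : allT (chk par T) T48 = true := by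
  show (allT (chk par T) T44 && (chk par T 7 1208981161254242366849027 .pr && allT (chk par T) T47)) = true
  rw [cT44, cT47, hT48]; rfl

theorem cT49 : allT (chk par T) T49 = true := by
  show (allT (chk par T) T41 && (chk par T 8 79231789365512409610079698945 .pr && allT (chk par T) T48)) = true
  rw [cT41, cT48, hT49]; rfl

theorem cT54 : allT (chk par T) T54 = true := by
  show (allT (chk par T) T52 && (chk par T 9 5192534543022388869131792780623873 .pr && allT (chk par T) T53)) = true
  rw [cT52, cT53, hT54]; rfl

theorem cT55 : allT (chk par T) T55 = true := by
  show (allT (chk par T) T51 && (chk par T 8 79231789291723462968929943553 .pr && allT (chk par T) T54)) = true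
  rw [cT51, cT54, hT55]; rfl

theorem cT56 : allT (chk par T) T56 = true := by
  show (allT (chk par T) T50 && (chk par T 9 5192534543022388868850317803913217 .pr && allT (chk par T) T55)) = true
  rw [cT50, cT55, hT56]; rfl

theorem cT61 : allT (chk par T) T61 = true := by
  show (allT (chk par T) T59 && (chk par T 10 340292751831577854582246217315566747649 .pr && allT (chk par T) T60)) = true
  rw [cT59, cT60, hT61]; rfl

theorem cT62 : allT (chk par T) T62 = true := by
  show (allT (chk par T) T58 && (chk par T 10 340292751831577854729819888425971482625 .pr && allT (chk par T) T61)) = true
  rw [cT58, cT61, hT62]; rfl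

theorem cT63 : allT (chk par T) T63 = true := by
  show (allT (chk par T) T57 && (chk par T 8 79230580402799306867846152200 .pr && allT (chk par T) T62)) = true
  rw [cT57, cT62, hT63]; rfl

theorem cT64 : allT (chk par T) T64 = true := by
  show (allT (chk par T) T56 && (chk par T 8 79230580439692795015266828320 (.ex 2812431594242697658368 [156100447564097388672, 156100447628522029120, 156100447628522094624, 156032893634111537168, 156024449384810217480, 156023657736438218756, 156023591765740552194, 156023586611779862529]) && allT (chk par T) T63)) = true
  rw [cT56, cT63, hT64]; rfl

theorem cT68 : allT (chk par T) T68 = true := by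
  show (allT (chk par T) T66 && (chk par T 10 340287559534719319828404381634804056065 .pr && allT (chk par T) T67)) = true
  rw [cT66, cT67, hT68]; rfl

theorem cT69 : allT (chk par T) T69 = true := by
  show (allT (chk par T) T65 && (chk par T 10 340292751831573018952754453614434451457 .pr && allT (chk par T) T68)) = true
  rw [cT65, cT68, hT69]; rfl

theorem cT74 : allT (chk par T) T74 = true := by
  show (allT (chk par T) T72 && (chk par T 10 340292751831577854877402848348046622721 .pr && allT (chk par T) T73)) = true
  rw [cT72, cT73, hT74]; rfl

theorem cT75 : allT (chk par T) T75 = true := by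
  show (allT (chk par T) T71 && (chk par T 9 5192455319695707014120526860779584 .pr && allT (chk par T) T74)) = true
  rw [cT71, cT74, hT75]; rfl

theorem cT76 : allT (chk par T) T76 = true := by
  show (allT (chk par T) T70 && (chk par T 8 79231789365512409644439699460 .pr && allT (chk par T) T75)) = true
  rw [cT70, cT75, hT76]; rfl

theorem cT77 : allT (chk par T) T77 = true := by
  show (allT (chk par T) T69 && (chk par T 8 79230580402797617957855952899 .pr && allT (chk par T) T76)) = true
  rw [cT69, cT76, hT77]; rfl

theorem cT78 : allT (chk par T) T78 = true := by
  show (allT (chk par T) T64 && (chk par T 8 79230580439691669080998674440 .pr && allT (chk par T) T77)) = true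
  rw [cT64, cT77, hT78]; rfl

theorem cT79 : allT (chk par T) T79 = true := by
  show (allT (chk par T) T49 && (chk par T 7 1208981161535734524411906 .pr && allT (chk par T) T78)) = true
  rw [cT49, cT78, hT79]; rfl

theorem cT80 : allT (chk par T) T80 = true := by
  show (allT (chk par T) T30 && (chk par T 7 1208962713947235884728322 .pr && allT (chk par T) T79)) = true
  rw [cT30, cT79, hT80]; rfl

theorem cT : allT (chk par T) T = true := cT80

end Pool.Agent.Helper95.GQ.E
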