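import Pool.Agent.Helper95.GQ.ETab

/-!
Kernel check of the last game and of the table.
-/

namespace Pool.Agent.Helper95.GQ.E

theorem ok_4 : vall (gameB 3 par.KK par.pm par.pm) par.T = true := by decide +kernel

theorem ok_t : vall par.tabB par.T = true := by decide +kernel

end Pool.Agent.Helper95.GQ.E
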