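import Pool.Agent.Helper95.GQ.EG1
import Pool.Agent.Helper95.GQ.EG2
import Pool.Agent.Helper95.GQ.EG3

/-!
The parameters are correct.
-/

namespace Pool.Agent.Helper95.GQ.E

theorem par_ok : par.OK where
  hK := by decide
  hc := ok_c
  h0 := by decide +kernel
  g1 := ok_1
  g2 := ok_2
  g3 := ok_3
  g4 := ok_4
  ht := ok_t
  hM := by decide

end Pool.Agent.Helper95.GQ.E
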