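import Pool.Agent.Helper95.GQ.Hoff
import Pool.Agent.Helper95.GQ.EOk
import Pool.Agent.Helper95.GQ.EChk

/-!
The exact cross bound for three colours, all numbers of vertices.
-/

namespace Pool.Agent.Helper95.GQ

open Finset
open Pool.Agent.Helper64.CX (Cfg Cross Bound)

/-- **Hoffman form of the cross bound for three colours.** -/
theorem hoff_three (n : ℕ) (F G : Finset (Cfg n)) (hFG : Cross 3 n F G) :
    3969 * ((F.card : ℝ) * G.card) ≤
      ((2 : ℝ) ^ (n.choose 2) - F.card) * ((2 : ℝ) ^ (n.choose 2) - G.card) :=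
  hoff_three_of (p := E.par) n (by decide) (by decide +kernel)
    (bound_all E.par_ok E.cT ⟨0, _, rfl⟩ n (Fin n) (Fintype.card_fin n)) F G hFG

/-- **The exact cross bound for three colours.** -/
theorem bound_three (n : ℕ) : Bound 3 n (1 / 4096) := by
  intro F G h
  have h1 := hoff_three n F G h
  set M : ℝ := (2 : ℝ) ^ (n.choose 2) with hM
  set f : ℝ := (F.card : ℝ) with hf
  set g : ℝ := (G.card : ℝ) with hg
  have hM0 : 0 < M := by positivity
  have hf0 : 0 ≤ f := Nat.cast_nonneg _
  have hg0 : 0 ≤ g := Nat.cast_nonneg _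
  by_contra hcon
  push Not at hcon
  have h2 : M ^ 2 < 4096 * (f * g) := by linarith
  have h3 : M < 32 * (f + g) := by
    by_contra h4
    push Not at h4
    have h5 : (32 * (f + g)) ^ 2 ≤ M ^ 2 := by
      apply pow_le_pow_left₀ (by positivity) h4
    nlinarith [sq_nonneg (f - g)]
  nlinarith

end Pool.Agent.Helper95.GQ
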