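import Pool.Agent.Helper95.GQ.ETab

/-!
Kernel check of the closure and of one game.
-/

namespace Pool.Agent.Helper95.GQ.E

theorem ok_c : vall (closeB 3 par.KK par.T) par.T = true := by decide +kernel

theorem ok_1 : vall (gameB 3 par.KK par.phi par.pp) par.T = true := by decide +kernel

end Pool.Agent.Helper95.GQ.E
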