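import Pool.Agent.Helper95.GQ.Bound

/-!
Tables of the certificate.
-/

namespace Pool.Agent.Helper95.GQ.E

def VV : VT := (.node (.node (.node (.node (.node (.node (.node (.node (.node .nil 16777216 [(0, 0), (0, 0), (0, 0)] 2520 888 504 .nil) 16777473 [(1, 0), (1, 0), (0, 0)] (-1200) 412 432 .nil) 16777730 [(2, 0), (2, 0), (0, 0)] 746 249 48 (.node .nil 16777746 [(2, 1), (2, 0), (0, 0)] 72 201 268 .nil)) 16777987 [(3, 0), (3, 0), (0, 0)] (-71) 0 24 (.node (.node .nil 16778003 [(3, 1), (3, 0), (0, 0)] 0 0 10 .nil) 16778035 [(3, 3), (3, 0), (0, 0)] 0 148 104 (.node .nil 16778244 [(4, 0), (4, 0), (0, 0)] 0 0 0 .nil))) 16778260 [(4, 1), (4, 0), (0, 0)] 0 0 0 (.node (.node (.node (.node .nil 16778276 [(4, 2), (4, 0), (0, 0)] 0 0 0 .nil) 16778292 [(4, 3), (4, 0), (0, 0)] 0 0 0 .nil) 16778340 [(4, 6), (4, 0), (0, 0)] (-312) 0 104 (.node .nil 16781826 [(2, 0), (2, 1), (0, 0)] 72 201 268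 .nil)) 16782083 [(3, 0), (3, 1), (0, 0)] 0 0 10 (.node (.node .nil 16782099 [(3, 1), (3, 1), (0, 0)] 475 159 137 .nil) 16782340 [(4, 0), (4, 1), (0, 0)] 0 0 0 (.node .nil 16782356 [(4, 1), (4, 1), (0, 0)] 0 0 0 .nil)))) 16782372 [(4, 2), (4, 1), (0, 0)] (-71) 0 24 (.node (.node (.node (.node (.node .nil 16782388 [(4, 3), (4, 1), (0, 0)] 30 10 0 .nil) 16786436 [(4, 0), (4, 2), (0, 0)] 0 0 0 .nil) 16786452 [(4, 1), (4, 2), (0, 0)] (-71) 0 24 (.node .nil 16786468 [(4, 2), (4, 2), (0, 0)] (-600) 0 200 .nil)) 16790275 [(3, 0), (3, 3), (0, 0)] 0 148 104 (.node (.node .nil 16790532 [(4, 0), (4, 3), (0, 0)] 0 0 0 .nil) 16790548 [(4, 1), (4, 3), (0, 0)] 30 10 0 (.node .nil 16802820 [(4, 0), (4, 6), (0, 0)] (-312) 0 104 .nil))) 16842753 [(1, 0), (0, 0), (1, 0)] (-1200) 412 432 (.node (.node (.node (.node .nil 16843008 [(0, 0), (1, 0), (1, 0)] (-1200) 412 432 .nil) 16843010 [(2, 0), (1, 0),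 (1, 0)] 347 116 139 .nil) 16843026 [(2, 1), (1, 0), (1, 0)] 888 296 497 (.node .nil 16843265 [(1, 0), (2, 0), (1, 0)] 347 116 139 .nil)) 16843267 [(3, 0), (2, 0), (1, 0)] (-10) 0 4 (.node (.node .nil 16843283 [(3, 1), (2, 0), (1, 0)] (-48) 0 32 .nil) 16843315 [(3, 3), (2, 0), (1, 0)] 0 100 214 (.node .nil 16843522 [(2, 0), (3, 0), (1, 0)] (-10) 0 4 .nil))))) 16843524 [(4, 0), (3, 0), (1, 0)] 0 0 0 (.node (.node (.node (.node (.node (.node .nil 16843538 [(2, 1), (3, 0), (1, 0)] 168 56 19 .nil) 16843540 [(4, 1), (3, 0), (1, 0)] 0 0 0 .nil) 16843556 [(4, 2), (3, 0), (1, 0)] 0 0 0 (.node .nil 16843572 [(4, 3), (3, 0), (1, 0)] 0 0 0 .nil)) 16843620 [(4, 6), (3, 0), (1, 0)] 298 100 0 (.node (.node .nil 16843779 [(3, 0), (4, 0), (1, 0)] 0 0 0 .nil) 16843795 [(3, 1), (4, 0), (1, 0)] 0 0 0 (.node .nil 16843827 [(3, 3), (4, 0), (1, 0)] 57 19 0 .nil))) 16847361 [(1, 0), (2, 1), (1, 0)] 888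 296 497 (.node (.node (.node (.node .nil 16847363 [(3, 0), (2, 1), (1, 0)] 168 56 19 .nil) 16847379 [(3, 1), (2, 1), (1, 0)] 0 129 201 .nil) 16847618 [(2, 0), (3, 1), (1, 0)] (-48) 0 32 (.node .nil 16847620 [(4, 0), (3, 1), (1, 0)] 0 0 0 .nil)) 16847634 [(2, 1), (3, 1), (1, 0)] 0 129 201 (.node (.node .nil 16847636 [(4, 1), (3, 1), (1, 0)] (-29) 0 10 .nil) 16847652 [(4, 2), (3, 1), (1, 0)] (-382) 0 128 (.node .nil 16847668 [(4, 3), (3, 1), (1, 0)] (-57) 0 19 .nil)))) 16847875 [(3, 0), (4, 1), (1, 0)] 0 0 0 (.node (.node (.node (.node (.node .nil 16847891 [(3, 1), (4, 1), (1, 0)] (-29) 0 10 .nil) 16847923 [(3, 3), (4, 1), (1, 0)] 385 129 0 .nil) 16851971 [(3, 0), (4, 2), (1, 0)] 0 0 0 (.node .nil 16851987 [(3, 1), (4, 2), (1, 0)] (-382) 0 128 .nil)) 16855810 [(2, 0), (3, 3), (1, 0)] 0 100 214 (.node (.node .nil 16855812 [(4, 0), (3, 3), (1, 0)] 57 19 0 .nil) 16855828 [(4, 1), (3,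 3), (1, 0)] 385 129 0 (.node .nil 16856067 [(3, 0), (4, 3), (1, 0)] 0 0 0 .nil))) 16856083 [(3, 1), (4, 3), (1, 0)] (-57) 0 19 (.node (.node (.node .nil 16868355 [(3, 0), (4, 6), (1, 0)] 298 100 0 .nil) 16908290 [(2, 0), (0, 0), (2, 0)] 746 249 48 (.node .nil 16908306 [(2, 1), (0, 0), (2, 0)] 72 201 268 .nil)) 16908545 [(1, 0), (1, 0), (2, 0)] 347 116 139 (.node (.node .nil 16908547 [(3, 0), (1, 0), (2, 0)] (-10) 0 4 .nil) 16908563 [(3, 1), (1, 0), (2, 0)] (-48) 0 32 (.node .nil 16908595 [(3, 3), (1, 0), (2, 0)] 0 100 214 .nil)))))) 16908800 [(0, 0), (2, 0), (2, 0)] 746 249 48 (.node (.node (.node (.node (.node (.node (.node .nil 16908802 [(2, 0), (2, 0), (2, 0)] (-115) 0 39 .nil) 16908804 [(4, 0), (2, 0), (2, 0)] 0 0 0 .nil) 16908818 [(2, 1), (2, 0), (2, 0)] (-256) 0 124 (.node .nil 16908820 [(4, 1), (2, 0), (2, 0)] 0 0 0 .nil)) 16908836 [(4, 2), (2, 0), (2, 0)] (-46) 0 16 (.node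 (.node .nil 16908852 [(4, 3), (2, 0), (2, 0)] (-46) 0 16 .nil) 16908900 [(4, 6), (2, 0), (2, 0)] (-504) 0 168 (.node .nil 16909057 [(1, 0), (3, 0), (2, 0)] (-10) 0 4 .nil))) 16909059 [(3, 0), (3, 0), (2, 0)] 0 0 0 (.node (.node (.node (.node .nil 16909075 [(3, 1), (3, 0), (2, 0)] 0 0 0 .nil) 16909107 [(3, 3), (3, 0), (2, 0)] (-57) 0 19 .nil) 16909314 [(2, 0), (4, 0), (2, 0)] 0 0 0 (.node .nil 16909330 [(2, 1), (4, 0), (2, 0)] 0 0 0 .nil)) 16912896 [(0, 0), (2, 1), (2, 0)] 72 201 268 (.node (.node .nil 16912898 [(2, 0), (2, 1), (2, 0)] (-256) 0 124 .nil) 16912900 [(4, 0), (2, 1), (2, 0)] 0 0 0 (.node .nil 16912914 [(2, 1), (2, 1), (2, 0)] (-608) 114 390 .nil)))) 16912916 [(4, 1), (2, 1), (2, 0)] (-46) 0 16 (.node (.node (.node (.node (.node .nil 16912932 [(4, 2), (2, 1), (2, 0)] (-131) 0 44 .nil) 16912948 [(4, 3), (2, 1), (2, 0)] 0 0 0 .nil) 16913153 [(1, 0), (3, 1), (2, 0)] (-48)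 0 32 (.node .nil 16913155 [(3, 0), (3, 1), (2, 0)] 0 0 0 .nil)) 16913171 [(3, 1), (3, 1), (2, 0)] (-17) 0 6 (.node (.node .nil 16913203 [(3, 3), (3, 1), (2, 0)] (-585) 0 195 .nil) 16913410 [(2, 0), (4, 1), (2, 0)] 0 0 0 (.node .nil 16913426 [(2, 1), (4, 1), (2, 0)] (-46) 0 16 .nil))) 16917506 [(2, 0), (4, 2), (2, 0)] (-46) 0 16 (.node (.node (.node (.node .nil 16917522 [(2, 1), (4, 2), (2, 0)] (-131) 0 44 .nil) 16921345 [(1, 0), (3, 3), (2, 0)] 0 100 214 .nil) 16921347 [(3, 0), (3, 3), (2, 0)] (-57) 0 19 (.node .nil 16921363 [(3, 1), (3, 3), (2, 0)] (-585) 0 195 .nil)) 16921602 [(2, 0), (4, 3), (2, 0)] (-46) 0 16 (.node (.node .nil 16921618 [(2, 1), (4, 3), (2, 0)] 0 0 0 .nil) 16933890 [(2, 0), (4, 6), (2, 0)] (-504) 0 168 (.node .nil 16973827 [(3, 0), (0, 0), (3, 0)] (-71) 0 24 .nil))))) 16973843 [(3, 1), (0, 0), (3, 0)] 0 0 10 (.node (.node (.node (.node (.node (.node .nil 16973875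 [(3, 3), (0, 0), (3, 0)] 0 148 104 .nil) 16974082 [(2, 0), (1, 0), (3, 0)] (-10) 0 4 .nil) 16974084 [(4, 0), (1, 0), (3, 0)] 0 0 0 (.node .nil 16974098 [(2, 1), (1, 0), (3, 0)] 168 56 19 .nil)) 16974100 [(4, 1), (1, 0), (3, 0)] 0 0 0 (.node (.node .nil 16974116 [(4, 2), (1, 0), (3, 0)] 0 0 0 .nil) 16974132 [(4, 3), (1, 0), (3, 0)] 0 0 0 (.node .nil 16974180 [(4, 6), (1, 0), (3, 0)] 298 100 0 .nil))) 16974337 [(1, 0), (2, 0), (3, 0)] (-10) 0 4 (.node (.node (.node (.node .nil 16974339 [(3, 0), (2, 0), (3, 0)] 0 0 0 .nil) 16974355 [(3, 1), (2, 0), (3, 0)] 0 0 0 .nil) 16974387 [(3, 3), (2, 0), (3, 0)] (-57) 0 19 (.node .nil 16974592 [(0, 0), (3, 0), (3, 0)] (-71) 0 24 .nil)) 16974594 [(2, 0), (3, 0), (3, 0)] 0 0 0 (.node (.node .nil 16974610 [(2, 1), (3, 0), (3, 0)] 0 0 0 .nil) 16974849 [(1, 0), (4, 0), (3, 0)] 0 0 0 (.node .nil 16978433 [(1, 0), (2, 1), (3, 0)] 168 56 19 .nil))))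 16978435 [(3, 0), (2, 1), (3, 0)] 0 0 0 (.node (.node (.node (.node (.node .nil 16978451 [(3, 1), (2, 1), (3, 0)] 0 0 0 .nil) 16978483 [(3, 3), (2, 1), (3, 0)] 216 72 0 .nil) 16978688 [(0, 0), (3, 1), (3, 0)] 0 0 10 (.node .nil 16978690 [(2, 0), (3, 1), (3, 0)] 0 0 0 .nil)) 16978706 [(2, 1), (3, 1), (3, 0)] 0 0 0 (.node (.node .nil 16978945 [(1, 0), (4, 1), (3, 0)] 0 0 0 .nil) 16983041 [(1, 0), (4, 2), (3, 0)] 0 0 0 (.node .nil 16986880 [(0, 0), (3, 3), (3, 0)] 0 148 104 .nil))) 16986882 [(2, 0), (3, 3), (3, 0)] (-57) 0 19 (.node (.node (.node .nil 16986898 [(2, 1), (3, 3), (3, 0)] 216 72 0 .nil) 16987137 [(1, 0), (4, 3), (3, 0)] 0 0 0 (.node .nil 16999425 [(1, 0), (4, 6), (3, 0)] 298 100 0 .nil)) 17039364 [(4, 0), (0, 0), (4, 0)] 0 0 0 (.node (.node .nil 17039380 [(4, 1), (0, 0), (4, 0)] 0 0 0 .nil) 17039396 [(4, 2), (0, 0), (4, 0)] 0 0 0 (.node .nil 17039412 [(4, 3), (0, 0), (4,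 0)] 0 0 0 .nil))))))) 17039460 [(4, 6), (0, 0), (4, 0)] (-312) 0 104 (.node (.node (.node (.node (.node (.node (.node (.node .nil 17039619 [(3, 0), (1, 0), (4, 0)] 0 0 0 .nil) 17039635 [(3, 1), (1, 0), (4, 0)] 0 0 0 .nil) 17039667 [(3, 3), (1, 0), (4, 0)] 57 19 0 (.node .nil 17039874 [(2, 0), (2, 0), (4, 0)] 0 0 0 .nil)) 17039890 [(2, 1), (2, 0), (4, 0)] 0 0 0 (.node (.node .nil 17040129 [(1, 0), (3, 0), (4, 0)] 0 0 0 .nil) 17040384 [(0, 0), (4, 0), (4, 0)] 0 0 0 (.node .nil 17043970 [(2, 0), (2, 1), (4, 0)] 0 0 0 .nil))) 17043986 [(2, 1), (2, 1), (4, 0)] 0 0 0 (.node (.node (.node (.node .nil 17044225 [(1, 0), (3, 1), (4, 0)] 0 0 0 .nil) 17044480 [(0, 0), (4, 1), (4, 0)] 0 0 0 .nil) 17048576 [(0, 0), (4, 2), (4, 0)] 0 0 0 (.node .nil 17052417 [(1, 0), (3, 3), (4, 0)] 57 19 0 .nil)) 17052672 [(0, 0), (4, 3), (4, 0)] 0 0 0 (.node (.node .nil 17064960 [(0, 0), (4, 6), (4, 0)] (-312)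 0 104 .nil) 17956866 [(2, 0), (0, 0), (2, 1)] 72 201 268 (.node .nil 17957121 [(1, 0), (1, 0), (2, 1)] 888 296 497 .nil)))) 17957123 [(3, 0), (1, 0), (2, 1)] 168 56 19 (.node (.node (.node (.node (.node .nil 17957139 [(3, 1), (1, 0), (2, 1)] 0 129 201 .nil) 17957376 [(0, 0), (2, 0), (2, 1)] 72 201 268 .nil) 17957378 [(2, 0), (2, 0), (2, 1)] (-256) 0 124 (.node .nil 17957380 [(4, 0), (2, 0), (2, 1)] 0 0 0 .nil)) 17957394 [(2, 1), (2, 0), (2, 1)] (-608) 114 390 (.node (.node .nil 17957396 [(4, 1), (2, 0), (2, 1)] (-46) 0 16 .nil) 17957412 [(4, 2), (2, 0), (2, 1)] (-131) 0 44 (.node .nil 17957428 [(4, 3), (2, 0), (2, 1)] 0 0 0 .nil))) 17957633 [(1, 0), (3, 0), (2, 1)] 168 56 19 (.node (.node (.node (.node .nil 17957635 [(3, 0), (3, 0), (2, 1)] 0 0 0 .nil) 17957651 [(3, 1), (3, 0), (2, 1)] 0 0 0 .nil) 17957683 [(3, 3), (3, 0), (2, 1)] 216 72 0 (.node .nil 17957890 [(2, 0), (4, 0), (2,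 1)] 0 0 0 .nil)) 17957906 [(2, 1), (4, 0), (2, 1)] 0 0 0 (.node (.node .nil 17961474 [(2, 0), (2, 1), (2, 1)] (-608) 114 390 .nil) 17961476 [(4, 0), (2, 1), (2, 1)] 0 0 0 (.node .nil 17961490 [(2, 1), (2, 1), (2, 1)] (-1296) 84 589 .nil))))) 17961492 [(4, 1), (2, 1), (2, 1)] 96 32 0 (.node (.node (.node (.node (.node (.node .nil 17961508 [(4, 2), (2, 1), (2, 1)] (-274) 0 92 .nil) 17961729 [(1, 0), (3, 1), (2, 1)] 0 129 201 .nil) 17961731 [(3, 0), (3, 1), (2, 1)] 0 0 0 (.node .nil 17961747 [(3, 1), (3, 1), (2, 1)] 126 42 0 .nil)) 17961779 [(3, 3), (3, 1), (2, 1)] (-235) 0 79 (.node (.node .nil 17961986 [(2, 0), (4, 1), (2, 1)] (-46) 0 16 .nil) 17962002 [(2, 1), (4, 1), (2, 1)] 96 32 0 (.node .nil 17966082 [(2, 0), (4, 2), (2, 1)] (-131) 0 44 .nil))) 17966098 [(2, 1), (4, 2), (2, 1)] (-274) 0 92 (.node (.node (.node (.node .nil 17969923 [(3, 0), (3, 3), (2, 1)] 216 72 0 .nil) 17969939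 [(3, 1), (3, 3), (2, 1)] (-235) 0 79 .nil) 17970178 [(2, 0), (4, 3), (2, 1)] 0 0 0 (.node .nil 18022403 [(3, 0), (0, 0), (3, 1)] 0 0 10 .nil)) 18022419 [(3, 1), (0, 0), (3, 1)] 475 159 137 (.node (.node .nil 18022658 [(2, 0), (1, 0), (3, 1)] (-48) 0 32 .nil) 18022660 [(4, 0), (1, 0), (3, 1)] 0 0 0 (.node .nil 18022674 [(2, 1), (1, 0), (3, 1)] 0 129 201 .nil)))) 18022676 [(4, 1), (1, 0), (3, 1)] (-29) 0 10 (.node (.node (.node (.node (.node .nil 18022692 [(4, 2), (1, 0), (3, 1)] (-382) 0 128 .nil) 18022708 [(4, 3), (1, 0), (3, 1)] (-57) 0 19 .nil) 18022913 [(1, 0), (2, 0), (3, 1)] (-48) 0 32 (.node .nil 18022915 [(3, 0), (2, 0), (3, 1)] 0 0 0 .nil)) 18022931 [(3, 1), (2, 0), (3, 1)] (-17) 0 6 (.node (.node .nil 18022963 [(3, 3), (2, 0), (3, 1)] (-585) 0 195 .nil) 18023168 [(0, 0), (3, 0), (3, 1)] 0 0 10 (.node .nil 18023170 [(2, 0), (3, 0), (3, 1)] 0 0 0 .nil))) 18023186 [(2, 1),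 (3, 0), (3, 1)] 0 0 0 (.node (.node (.node .nil 18023425 [(1, 0), (4, 0), (3, 1)] 0 0 0 .nil) 18027009 [(1, 0), (2, 1), (3, 1)] 0 129 201 (.node .nil 18027011 [(3, 0), (2, 1), (3, 1)] 0 0 0 .nil)) 18027027 [(3, 1), (2, 1), (3, 1)] 126 42 0 (.node (.node .nil 18027059 [(3, 3), (2, 1), (3, 1)] (-235) 0 79 .nil) 18027264 [(0, 0), (3, 1), (3, 1)] 475 159 137 (.node .nil 18027266 [(2, 0), (3, 1), (3, 1)] (-17) 0 6 .nil)))))) 18027282 [(2, 1), (3, 1), (3, 1)] 126 42 0 (.node (.node (.node (.node (.node (.node (.node .nil 18027521 [(1, 0), (4, 1), (3, 1)] (-29) 0 10 .nil) 18031617 [(1, 0), (4, 2), (3, 1)] (-382) 0 128 .nil) 18035458 [(2, 0), (3, 3), (3, 1)] (-585) 0 195 (.node .nil 18035474 [(2, 1), (3, 3), (3, 1)] (-235) 0 79 .nil)) 18035713 [(1, 0), (4, 3), (3, 1)] (-57) 0 19 (.node (.node .nil 18087940 [(4, 0), (0, 0), (4, 1)] 0 0 0 .nil) 18087956 [(4, 1), (0, 0), (4, 1)] 0 0 0 (.node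 .nil 18087972 [(4, 2), (0, 0), (4, 1)] (-71) 0 24 .nil))) 18087988 [(4, 3), (0, 0), (4, 1)] 30 10 0 (.node (.node (.node (.node .nil 18088195 [(3, 0), (1, 0), (4, 1)] 0 0 0 .nil) 18088211 [(3, 1), (1, 0), (4, 1)] (-29) 0 10 .nil) 18088243 [(3, 3), (1, 0), (4, 1)] 385 129 0 (.node .nil 18088450 [(2, 0), (2, 0), (4, 1)] 0 0 0 .nil)) 18088466 [(2, 1), (2, 0), (4, 1)] (-46) 0 16 (.node (.node .nil 18088705 [(1, 0), (3, 0), (4, 1)] 0 0 0 .nil) 18088960 [(0, 0), (4, 0), (4, 1)] 0 0 0 (.node .nil 18092546 [(2, 0), (2, 1), (4, 1)] (-46) 0 16 .nil)))) 18092562 [(2, 1), (2, 1), (4, 1)] 96 32 0 (.node (.node (.node (.node (.node .nil 18092801 [(1, 0), (3, 1), (4, 1)] (-29) 0 10 .nil) 18093056 [(0, 0), (4, 1), (4, 1)] 0 0 0 .nil) 18097152 [(0, 0), (4, 2), (4, 1)] (-71) 0 24 (.node .nil 18100993 [(1, 0), (3, 3), (4, 1)] 385 129 0 .nil)) 18101248 [(0, 0), (4, 3), (4, 1)] 30 10 0 (.node (.node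 .nil 19136516 [(4, 0), (0, 0), (4, 2)] 0 0 0 .nil) 19136532 [(4, 1), (0, 0), (4, 2)] (-71) 0 24 (.node .nil 19136548 [(4, 2), (0, 0), (4, 2)] (-600) 0 200 .nil))) 19136771 [(3, 0), (1, 0), (4, 2)] 0 0 0 (.node (.node (.node .nil 19136787 [(3, 1), (1, 0), (4, 2)] (-382) 0 128 .nil) 19137026 [(2, 0), (2, 0), (4, 2)] (-46) 0 16 (.node .nil 19137042 [(2, 1), (2, 0), (4, 2)] (-131) 0 44 .nil)) 19137281 [(1, 0), (3, 0), (4, 2)] 0 0 0 (.node (.node .nil 19137536 [(0, 0), (4, 0), (4, 2)] 0 0 0 .nil) 19141122 [(2, 0), (2, 1), (4, 2)] (-131) 0 44 (.node .nil 19141138 [(2, 1), (2, 1), (4, 2)] (-274) 0 92 .nil))))) 19141377 [(1, 0), (3, 1), (4, 2)] (-382) 0 128 (.node (.node (.node (.node (.node (.node .nil 19141632 [(0, 0), (4, 1), (4, 2)] (-71) 0 24 .nil) 19145728 [(0, 0), (4, 2), (4, 2)] (-600) 0 200 .nil) 20119555 [(3, 0), (0, 0), (3, 3)] 0 148 104 (.node .nil 20119810 [(2, 0), (1, 0),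 (3, 3)] 0 100 214 .nil)) 20119812 [(4, 0), (1, 0), (3, 3)] 57 19 0 (.node (.node .nil 20119828 [(4, 1), (1, 0), (3, 3)] 385 129 0 .nil) 20120065 [(1, 0), (2, 0), (3, 3)] 0 100 214 (.node .nil 20120067 [(3, 0), (2, 0), (3, 3)] (-57) 0 19 .nil))) 20120083 [(3, 1), (2, 0), (3, 3)] (-585) 0 195 (.node (.node (.node (.node .nil 20120320 [(0, 0), (3, 0), (3, 3)] 0 148 104 .nil) 20120322 [(2, 0), (3, 0), (3, 3)] (-57) 0 19 .nil) 20120338 [(2, 1), (3, 0), (3, 3)] 216 72 0 (.node .nil 20120577 [(1, 0), (4, 0), (3, 3)] 57 19 0 .nil)) 20124163 [(3, 0), (2, 1), (3, 3)] 216 72 0 (.node (.node .nil 20124179 [(3, 1), (2, 1), (3, 3)] (-235) 0 79 .nil) 20124418 [(2, 0), (3, 1), (3, 3)] (-585) 0 195 (.node .nil 20124434 [(2, 1), (3, 1), (3, 3)] (-235) 0 79 .nil)))) 20124673 [(1, 0), (4, 1), (3, 3)] 385 129 0 (.node (.node (.node (.node (.node .nil 20185092 [(4, 0), (0, 0), (4, 3)] 0 0 0 .nil) 20185108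 [(4, 1), (0, 0), (4, 3)] 30 10 0 .nil) 20185347 [(3, 0), (1, 0), (4, 3)] 0 0 0 (.node .nil 20185363 [(3, 1), (1, 0), (4, 3)] (-57) 0 19 .nil)) 20185602 [(2, 0), (2, 0), (4, 3)] (-46) 0 16 (.node (.node .nil 20185618 [(2, 1), (2, 0), (4, 3)] 0 0 0 .nil) 20185857 [(1, 0), (3, 0), (4, 3)] 0 0 0 (.node .nil 20186112 [(0, 0), (4, 0), (4, 3)] 0 0 0 .nil))) 20189698 [(2, 0), (2, 1), (4, 3)] 0 0 0 (.node (.node (.node .nil 20189953 [(1, 0), (3, 1), (4, 3)] (-57) 0 19 .nil) 20190208 [(0, 0), (4, 1), (4, 3)] 30 10 0 (.node .nil 23330820 [(4, 0), (0, 0), (4, 6)] (-312) 0 104 .nil)) 23331075 [(3, 0), (1, 0), (4, 6)] 298 100 0 (.node (.node .nil 23331330 [(2, 0), (2, 0), (4, 6)] (-504) 0 168 .nil) 23331585 [(1, 0), (3, 0), (4, 6)] 298 100 0 (.node .nil 23331840 [(0, 0), (4, 0), (4, 6)] (-312) 0 104 .nil))))))))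

def tab (c : ℕ) : ℕ :=
  (Bool.rec (motive := fun _ => ℕ) (Bool.rec (motive := fun _ => ℕ) (Bool.rec (motive := fun _ => ℕ) (Bool.rec (motive := fun _ => ℕ) (Bool.rec (motive := fun _ => ℕ) (Bool.rec (motive := fun _ => ℕ) 8239728901483491113954818654209 1844674414217133031425 (Nat.ble c 10010)) (Bool.rec (motive := fun _ => ℕ) 13310331302396408719116997754881 6259024838626882674446932377601 (Nat.ble c 3286)) (Nat.ble c 10008)) (Bool.rec (motive := fun _ => ℕ) (Bool.rec (motive := fun _ => ℕ) 184467446432222150657 1505335087771022419598799536129 (Nat.ble c 3066)) (Bool.rec (motive := fun _ => ℕ) 5566277615617 2379629992728372183041 (Nat.ble c 3002)) (Nat.ble c 3032)) (Nat.ble c 3104)) (Bool.rec (motive := fun _ => ℕ) (Bool.rec (motive := fun _ => ℕ) (Bool.rec (motive := fun _ => ℕ) 15449491690281545833794792062977 1328165579801078267905 (Nat.ble c 2934)) (Bool.rec (motive := fun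 _ => ℕ) 5566277615617 5566277615617 (Nat.ble c 2714)) (Nat.ble c 2720)) (Bool.rec (motive := fun _ => ℕ) (Bool.rec (motive := fun _ => ℕ) 1267650600228229406865412325377 350488143211572232193 (Nat.ble c 2618)) (Bool.rec (motive := fun _ => ℕ) 1505335087771022419598799536129 8239728904213609238203862089729 (Nat.ble c 2610)) (Nat.ble c 2614)) (Nat.ble c 2712)) (Nat.ble c 2966)) (Bool.rec (motive := fun _ => ℕ) (Bool.rec (motive := fun _ => ℕ) (Bool.rec (motive := fun _ => ℕ) (Bool.rec (motive := fun _ => ℕ) 16954826779897242657955638149121 15845632502852867521698087305217 (Nat.ble c 2592)) (Bool.rec (motive := fun _ => ℕ) 7288990951312319062995500007425 1901475900342344107506389745665 (Nat.ble c 1696)) (Nat.ble c 1944)) (Bool.rec (motive := fun _ => ℕ) (Bool.rec (motive := fun _ => ℕ) 10141204801825835215899225751553 3486039150627630859119570714625 (Nat.ble c 1624)) (Bool.rec (motive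 := fun _ => ℕ) 5566277615617 5566277615617 (Nat.ble c 1306)) (Nat.ble c 1312)) (Nat.ble c 1658)) (Bool.rec (motive := fun _ => ℕ) (Bool.rec (motive := fun _ => ℕ) (Bool.rec (motive := fun _ => ℕ) 1267650600228229406865412325377 590295816337300127745 (Nat.ble c 1048)) (Bool.rec (motive := fun _ => ℕ) 774763257203244662785 46665387722451221344788989083649 (Nat.ble c 972)) (Nat.ble c 1046)) (Bool.rec (motive := fun _ => ℕ) (Bool.rec (motive := fun _ => ℕ) 5566277615617 792281625142643381377163067393 (Nat.ble c 762)) 1267650600228229406865412325377 (Nat.ble c 728)) (Nat.ble c 800)) (Nat.ble c 1304)) (Nat.ble c 2606)) (Bool.rec (motive := fun _ => ℕ) (Bool.rec (motive := fun _ => ℕ) (Bool.rec (motive := fun _ => ℕ) (Bool.rec (motive := fun _ => ℕ) (Bool.rec (motive := fun _ => ℕ) 475368975085586031054526873601 10854258267387246565641726984193 (Nat.ble c 722)) (Bool.rec (motive := fun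 _ => ℕ) 5566277615617 15924860667746761847377143791617 (Nat.ble c 686)) (Nat.ble c 694)) (Bool.rec (motive := fun _ => ℕ) (Bool.rec (motive := fun _ => ℕ) 5566277615617 30898983382666020488839967014913 (Nat.ble c 652)) (Bool.rec (motive := fun _ => ℕ) 5566277615617 5566277615617 (Nat.ble c 410)) (Nat.ble c 416)) (Nat.ble c 664)) (Bool.rec (motive := fun _ => ℕ) (Bool.rec (motive := fun _ => ℕ) (Bool.rec (motive := fun _ => ℕ) 5566277615617 5566277615617 (Nat.ble c 378)) (Bool.rec (motive := fun _ => ℕ) 5566277615617 792281625142643381501717118977 (Nat.ble c 370)) (Nat.ble c 374)) (Bool.rec (motive := fun _ => ℕ) (Bool.rec (motive := fun _ => ℕ) 2535301200456458808353525596161 5566277615617 (Nat.ble c 344)) 5566277615617 (Nat.ble c 342)) (Nat.ble c 366)) (Nat.ble c 408)) (Bool.rec (motive := fun _ => ℕ) (Bool.rec (motive := fun _ => ℕ) (Bool.rec (motive := fun _ => ℕ) (Bool.rec (motive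 := fun _ => ℕ) 1505335088804040088692902068225 9824292151768777866066215829505 (Nat.ble c 332)) (Bool.rec (motive := fun _ => ℕ) 21233147557530638039760913825793 39376396775049612039189579169793 (Nat.ble c 326)) (Nat.ble c 328)) (Bool.rec (motive := fun _ => ℕ) (Bool.rec (motive := fun _ => ℕ) 5566277615617 5566277615617 (Nat.ble c 26)) (Bool.rec (motive := fun _ => ℕ) 5566277615617 5566277615617 (Nat.ble c 22)) (Nat.ble c 24)) (Nat.ble c 32)) (Bool.rec (motive := fun _ => ℕ) (Bool.rec (motive := fun _ => ℕ) (Bool.rec (motive := fun _ => ℕ) 1901475900342344107506389745665 316912650057057355897503744001 (Nat.ble c 14)) (Bool.rec (motive := fun _ => ℕ) 3089898338056309171220570439681 3802951805277927487614111186945 (Nat.ble c 8)) (Nat.ble c 12)) (Bool.rec (motive := fun _ => ℕ) (Bool.rec (motive := fun _ => ℕ) 11012714591622565245109548351489 34226566213762252399191638671361 (Nat.ble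 c 2)) 39930993923569934900989828005889 (Nat.ble c 0)) (Nat.ble c 6)) (Nat.ble c 18)) (Nat.ble c 334)) (Nat.ble c 726))

def par : Par where
  KK := 8
  T := VV
  tab := tab
  B := 4294967296
  O := 1296
  M := 3817
  AA := 40

end Pool.Agent.Helper95.GQ.E
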