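import Pool.Agent.Helper95.GQ.Game

/-!
Packed evaluation for three colours.
-/

namespace Pool.Agent.Helper95.GQ

open Finset
open Pool.Agent.Helper95.GC (c2 addV IsG Iso deg pk pk_succ pk_add pk_mul pk_congr pk_land pk_mod
  pk_mod_of_lt pkl pkl_eq rowN GF GF_isG GF_cons_eq rec_ble WFr)

def inc (R S D : ℕ) : ℕ :=
  Nat.add (Nat.mod (Nat.land R S) 31)
    (Nat.mul 16 (Nat.mod (Nat.land (Nat.mul 31 (Nat.land R S)) D) 31))

def new (p : ℕ) : ℕ := Nat.add p (Nat.mul 16 (Nat.div (Nat.mul p (Nat.sub p 1)) 2))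

def oth (R S : ℕ) : ℕ := Nat.sub R (Nat.land R S)

def oC (R S : ℕ) : ℕ := Nat.mod (Nat.sub R (Nat.land R S)) 31

def nD (R S D : ℕ) : ℕ :=
  Nat.add (Nat.mul 32 (Nat.add D (Nat.sub R (Nat.land R S)))) (Nat.mod (Nat.sub R (Nat.land R S)) 31)

def nE (R S e : ℕ) : ℕ := Nat.add e (Nat.mul 2 (Nat.mod (Nat.sub R (Nat.land R S)) 31))

def nX (R S x : ℕ) : ℕ := Nat.add x (new (Nat.mod (Nat.sub R (Nat.land R S)) 31))

def iX (R S D x : ℕ) : ℕ := Nat.add x (inc R S D)

def sq (x : ℕ) : ℕ := Nat.mul x x

def sc (x y z : ℕ) : ℕ := Nat.add (sq x) (Nat.add (sq y) (sq z))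

def evC (tab : ℕ → ℕ) (K : ℕ) (rows : List ℕ) : ℕ → ℕ → ℕ → ℕ → ℕ → ℕ → ℕ → ℕ → ℕ :=
  List.rec (motive := fun _ => ℕ → ℕ → ℕ → ℕ → ℕ → ℕ → ℕ → ℕ → ℕ)
    (fun _ _ _ _ _ x y z => tab (sc x y z))
    (fun R _ ih S T U D e x y z =>
      Nat.add (Bool.rec (motive := fun _ => ℕ) 0
        (ih (Nat.succ (Nat.mul 32 S)) (Nat.mul 32 T) (Nat.mul 32 U) (nD R S D) (nE R S e)
          (nX R S x) (iX R T D y) (iX R U D z)) (Nat.ble (nE R S e) K))
      (Nat.add (Bool.rec (motive := fun _ => ℕ) 0
        (ih (Nat.mul 32 S) (Nat.succ (Nat.mul 32 T)) (Nat.mul 32 U) (nD R T D) (nE R T e)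
          (iX R S D x) (nX R T y) (iX R U D z)) (Nat.ble (nE R T e) K))
      (Bool.rec (motive := fun _ => ℕ) 0
        (ih (Nat.mul 32 S) (Nat.mul 32 T) (Nat.succ (Nat.mul 32 U)) (nD R U D) (nE R U e)
          (iX R S D x) (iX R T D y) (nX R U z)) (Nat.ble (nE R U e) K)))) rows

/-- two colours used so far -/
def evB (tab : ℕ → ℕ) (K : ℕ) (rows : List ℕ) : ℕ → ℕ → ℕ → ℕ → ℕ → ℕ → ℕ :=
  List.rec (motive := fun _ => ℕ → ℕ → ℕ → ℕ → ℕ → ℕ → ℕ)
    (fun _ _ _ _ x y => tab (sc x y 0))
    (fun R rest ih S T D e x y =>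
      Nat.add (Bool.rec (motive := fun _ => ℕ) 0
        (ih (Nat.succ (Nat.mul 32 S)) (Nat.mul 32 T) (nD R S D) (nE R S e)
          (nX R S x) (iX R T D y)) (Nat.ble (nE R S e) K))
      (Nat.add (Bool.rec (motive := fun _ => ℕ) 0
        (ih (Nat.mul 32 S) (Nat.succ (Nat.mul 32 T)) (nD R T D) (nE R T e)
          (iX R S D x) (nX R T y)) (Nat.ble (nE R T e) K))
      (Bool.rec (motive := fun _ => ℕ) 0
        (evC tab K rest (Nat.mul 32 S) (Nat.mul 32 T) 1 (nD R 0 D) (nE R 0 e)
          (iX R S D x) (iX R T D y) (nX R 0 0)) (Nat.ble (nE R 0 e) K)))) rows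

/-- one colour used so far -/
def evA (tab : ℕ → ℕ) (K : ℕ) (rows : List ℕ) : ℕ → ℕ → ℕ → ℕ → ℕ :=
  List.rec (motive := fun _ => ℕ → ℕ → ℕ → ℕ → ℕ)
    (fun _ _ _ x => tab (sc x 0 0))
    (fun R rest ih S D e x =>
      Nat.add (Bool.rec (motive := fun _ => ℕ) 0
        (ih (Nat.succ (Nat.mul 32 S)) (nD R S D) (nE R S e) (nX R S x)) (Nat.ble (nE R S e) K))
      (Nat.mul 2 (Bool.rec (motive := fun _ => ℕ) 0
        (evB tab K rest (Nat.mul 32 S) 1 (nD R 0 D) (nE R 0 e)
          (iX R S D x) (nX R 0 0)) (Nat.ble (nE R 0 e) K)))) rows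

def evT (tab : ℕ → ℕ) (K : ℕ) : List ℕ → ℕ
  | [] => tab (sc 0 0 0)
  | R :: rest => Nat.mul 3 (Bool.rec (motive := fun _ => ℕ) 0
      (evA tab K rest 1 (nD R 0 0) (nE R 0 0) (nX R 0 0)) (Nat.ble (nE R 0 0) K))

section Eqs
variable (tab : ℕ → ℕ) (K : ℕ)

theorem evC_nil (S T U D e x y z : ℕ) : evC tab K [] S T U D e x y z = tab (sc x y z) := rfl

theorem evC_cons (R : ℕ) (rows : List ℕ) (S T U D e x y z : ℕ) :
    evC tab K (R :: rows) S T U D e x y z =
      (if nE R S e ≤ K then evC tab K rows (32 * S + 1) (32 * T) (32 * U) (nD R S D) (nE R S e)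
          (nX R S x) (iX R T D y) (iX R U D z) else 0) +
      ((if nE R T e ≤ K then evC tab K rows (32 * S) (32 * T + 1) (32 * U) (nD R T D) (nE R T e)
          (iX R S D x) (nX R T y) (iX R U D z) else 0) +
      (if nE R U e ≤ K then evC tab K rows (32 * S) (32 * T) (32 * U + 1) (nD R U D) (nE R U e)
          (iX R S D x) (iX R T D y) (nX R U z) else 0)) := by
  rw [← rec_ble, ← rec_ble, ← rec_ble]
  rfl

theorem sc_swap1 (x y z : ℕ) : sc x y z = sc y x z := by
  unfold sc
  show sq x + (sq y + sq z) = sq y + (sq x + sq z)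
  omega

theorem sc_swap2 (x y z : ℕ) : sc x y z = sc x z y := by
  unfold sc
  show sq x + (sq y + sq z) = sq x + (sq z + sq y)
  omega

theorem evC_swap1 (rows : List ℕ) : ∀ (S T U D e x y z : ℕ),
    evC tab K rows S T U D e x y z = evC tab K rows T S U D e y x z := by
  induction rows with
  | nil => intro S T U D e x y z; rw [evC_nil, evC_nil, sc_swap1]
  | cons R rows ih =>
    intro S T U D e x y z
    rw [evC_cons, evC_cons]
    rw [ih (32 * S + 1), ih (32 * S) (32 * T + 1), ih (32 * S) (32 * T) (32 * U + 1)]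
    omega

theorem evC_swap2 (rows : List ℕ) : ∀ (S T U D e x y z : ℕ),
    evC tab K rows S T U D e x y z = evC tab K rows S U T D e x z y := by
  induction rows with
  | nil => intro S T U D e x y z; rw [evC_nil, evC_nil, sc_swap2]
  | cons R rows ih =>
    intro S T U D e x y z
    rw [evC_cons, evC_cons]
    rw [ih (32 * S + 1), ih (32 * S) (32 * T + 1), ih (32 * S) (32 * T) (32 * U + 1)]
    omega

theorem iX_zero (R D : ℕ) : iX R 0 D 0 = 0 := by
  unfold iX inc
  have h : Nat.land R 0 = 0 := Nat.and_zero R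
  rw [h]
  have h2 : Nat.land (Nat.mul 31 0) D = 0 := Nat.zero_and D
  rw [h2]

theorem evB_eq (rows : List ℕ) : ∀ (S T D e x y : ℕ),
    evB tab K rows S T D e x y = evC tab K rows S T 0 D e x y 0 := by
  induction rows with
  | nil => intro S T D e x y; rfl
  | cons R rows ih =>
    intro S T D e x y
    have h1 : evB tab K (R :: rows) S T D e x y =
        (if nE R S e ≤ K then evB tab K rows (32 * S + 1) (32 * T) (nD R S D) (nE R S e)
            (nX R S x) (iX R T D y) else 0) +
        ((if nE R T e ≤ K then evB tab K rows (32 * S) (32 * T + 1) (nD R T D) (nE R T e)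
            (iX R S D x) (nX R T y) else 0) +
        (if nE R 0 e ≤ K then evC tab K rows (32 * S) (32 * T) 1 (nD R 0 D) (nE R 0 e)
            (iX R S D x) (iX R T D y) (nX R 0 0) else 0)) := by
      rw [← rec_ble, ← rec_ble, ← rec_ble]
      rfl
    rw [h1, evC_cons, ih, ih, iX_zero]

theorem evA_eq (rows : List ℕ) : ∀ (S D e x : ℕ),
    evA tab K rows S D e x = evC tab K rows S 0 0 D e x 0 0 := by
  induction rows with
  | nil => intro S D e x; rfl
  | cons R rows ih =>
    intro S D e x
    have h1 : evA tab K (R :: rows) S D e x =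
        (if nE R S e ≤ K then evA tab K rows (32 * S + 1) (nD R S D) (nE R S e)
            (nX R S x) else 0) +
        2 * (if nE R 0 e ≤ K then evB tab K rows (32 * S) 1 (nD R 0 D) (nE R 0 e)
            (iX R S D x) (nX R 0 0) else 0) := by
      rw [← rec_ble, ← rec_ble]
      rfl
    rw [h1, evC_cons, ih, evB_eq, iX_zero, evC_swap2 tab K rows (32 * S) (32 * 0) (32 * 0 + 1)]
    simp only [Nat.mul_zero, Nat.zero_add]
    omega

theorem evT_eq (rows : List ℕ) : evT tab K rows = evC tab K rows 0 0 0 0 0 0 0 0 := by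
  cases rows with
  | nil => rfl
  | cons R rows =>
    have h1 : evT tab K (R :: rows) = 3 * (if nE R 0 0 ≤ K then
        evA tab K rows 1 (nD R 0 0) (nE R 0 0) (nX R 0 0) else 0) := by
      rw [← rec_ble]; rfl
    rw [h1, evC_cons, evA_eq, iX_zero, evC_swap2 tab K rows (32 * 0) (32 * 0) (32 * 0 + 1),
      evC_swap1 tab K rows (32 * 0) (32 * 0 + 1)]
    simp only [Nat.mul_zero, Nat.zero_add]
    omega

end Eqs

/-! ### invariants -/

section Ops
variable {n : ℕ} (A : Fin n → Fin n → Bool) (N : Fin n → Bool) (s : Fin n → Fin 3)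

def sI (a : Fin 3) (i : Fin n) : ℕ := if s i = a then 1 else 0
def aI (a : Fin 3) (i : Fin n) : ℕ := if N i = true ∧ s i = a then 1 else 0
def pI (b : Fin 3) (i : Fin n) : ℕ := if N i = true ∧ s i ≠ b then 1 else 0

theorem sum_pI (b : Fin 3) : ∑ i, pI N s b i = (PS N s b).card := by
  unfold PS pI
  rw [card_filter]

theorem sum_aI (b : Fin 3) : ∑ i, aI N s b i = (PA N s b).card := by
  unfold PA aI
  rw [card_filter]

theorem land_aI (a : Fin 3) : pk n (fun i => (N i).toNat) &&& pk n (sI s a) = pk n (aI N s a) := by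
  rw [pk_land]
  · apply pk_congr
    intro i
    unfold sI aI
    cases N i <;> by_cases h : s i = a <;> simp [h]
  · intro i; cases N i <;> simp
  · intro i; unfold sI; split_ifs <;> omega

theorem sub_pI (b : Fin 3) : pk n (fun i => (N i).toNat) - pk n (aI N s b) = pk n (pI N s b) := by
  have : pk n (fun i => (N i).toNat) = pk n (aI N s b) + pk n (pI N s b) := by
    rw [pk_add]
    apply pk_congr
    intro i
    unfold pI aI
    cases N i <;> by_cases h : s i = b <;> simp [h]
  omega

theorem dg_le (i : Fin n) : dg A s i ≤ E2 (st A s) := by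
  have h1 : dg A s i ≤ sd id A s (s i) := by
    unfold sd
    have := single_le_sum (f := fun v => if s v = s i then id (dg A s v) else 0)
      (fun v _ => Nat.zero_le _) (mem_univ i)
    simpa using this
  have h2 : sd id A s (s i) ≤ E2 (st A s) := by
    unfold E2 st
    rw [List.map_ofFn, List.sum_ofFn]
    exact single_le_sum (f := fun a => sd id A s a) (fun v _ => Nat.zero_le _) (mem_univ (s i))
  exact le_trans h1 h2

theorem sd_le (a : Fin 3) : sd id A s a ≤ E2 (st A s) := by
  unfold E2 st
  rw [List.map_ofFn, List.sum_ofFn]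
  exact single_le_sum (f := fun a => sd id A s a) (fun v _ => Nat.zero_le _) (mem_univ a)

theorem land_deg (h : E2 (st A s) ≤ 30) (a : Fin 3) :
    ((31 * pk n (aI N s a)) &&& pk n (dg A s)) % 31 = ∑ v ∈ PA N s a, dg A s v := by
  rw [pk_mul, pk_land]
  · have e1 : ∑ v ∈ PA N s a, dg A s v = ∑ i, ((31 * aI N s a i) &&& dg A s i) := by
      unfold PA
      rw [sum_filter]
      apply sum_congr rfl
      intro i _
      unfold aI
      split_ifs with hc
      · have := dg_le A s i
        have h32 := Nat.and_two_pow_sub_one_eq_mod (dg A s i) 5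
        rw [Nat.land_comm]
        norm_num at h32 ⊢
        omega
      · simp
    rw [e1]
    apply pk_mod_of_lt
    rw [← e1]
    have h1 := a_le A N a s id
    simp only [id] at h1
    have h2 := sd_le A s a
    omega
  · intro i
    unfold aI
    split_ifs <;> simp
  · intro i
    have := dg_le A s i
    omega

theorem mod_PS (hn : n ≤ 30) (b : Fin 3) : pk n (pI N s b) % 31 = (PS N s b).card := by
  rw [pk_mod_of_lt, sum_pI]
  rw [sum_pI]
  have : (PS N s b).card ≤ (univ : Finset (Fin n)).card := card_le_card (filter_subset _ _)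
  simp at this
  omega

theorem mod_PA (hn : n ≤ 30) (b : Fin 3) : pk n (aI N s b) % 31 = (PA N s b).card := by
  rw [pk_mod_of_lt, sum_aI]
  rw [sum_aI]
  have : (PA N s b).card ≤ (univ : Finset (Fin n)).card := card_le_card (filter_subset _ _)
  simp at this
  omega

end Ops

section Step
variable (tab : ℕ → ℕ) (K : ℕ)

def xx {V : Type} [Fintype V] (A : V → V → Bool) (s : V → Fin 3) (a : Fin 3) : ℕ :=
  sd id A s a + 16 * sd c2 A s a

/-- the term of the partially processed sum -/
def trm (rest : List (List Bool)) (rows : List (List Bool)) (s : Fin rows.length → Fin 3) : ℕ :=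
  if E2 (st (GF rows) s) ≤ K then
    evC tab K (rest.map pkl) (pk rows.length (sI s 0)) (pk rows.length (sI s 1))
      (pk rows.length (sI s 2)) (pk rows.length (dg (GF rows) s)) (E2 (st (GF rows) s))
      (xx (GF rows) s 0) (xx (GF rows) s 1) (xx (GF rows) s 2)
  else 0

theorem ext_comp (n : ℕ) (b : Fin 3) (s : Fin n → Fin 3) :
    (ext b s) ∘ (finSuccEquiv n) = (Fin.cons b s : Fin (n + 1) → Fin 3) := by
  funext i
  induction i using Fin.cases with
  | zero => simp
  | succ i => simp

theorem sum_cons {M : Type} [AddCommMonoid M] (n : ℕ) (F : (Fin (n + 1) → Fin 3) → M) :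
    ∑ s : Fin (n + 1) → Fin 3, F s =
      ∑ s : Fin n → Fin 3, ∑ b : Fin 3, F (Fin.cons b s) := by
  have e1 : ∑ s : Fin (n + 1) → Fin 3, F s =
      ∑ s : Option (Fin n) → Fin 3, F (s ∘ (finSuccEquiv n)) := by
    symm
    apply Fintype.sum_equiv (Equiv.arrowCongr (finSuccEquiv n).symm (Equiv.refl (Fin 3)))
    intro s
    rfl
  rw [e1, sum_option_fun]
  apply sum_congr rfl
  intro s _
  apply sum_congr rfl
  intro b _
  rw [ext_comp]

theorem st_cons (r : List Bool) (rs : List (List Bool)) (b : Fin 3) (s : Fin rs.length → Fin 3) :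
    st (GF (r :: rs)) (Fin.cons b s : Fin (rs.length + 1) → Fin 3) =
      st (addV (GF rs) (rowN r rs.length)) (ext b s) := by
  rw [← st_iso (finSuccEquiv _) (GF_cons_eq r rs) (ext b s), ext_comp]

theorem sd_cons (w : ℕ → ℕ) (r : List Bool) (rs : List (List Bool)) (b a : Fin 3)
    (s : Fin rs.length → Fin 3) :
    sd w (GF (r :: rs)) (Fin.cons b s : Fin (rs.length + 1) → Fin 3) a =
      sd w (addV (GF rs) (rowN r rs.length)) (ext b s) a := by
  rw [← sd_iso (finSuccEquiv _) (GF_cons_eq r rs) (ext b s), ext_comp]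

theorem pk_dg_cons (r : List Bool) (rows : List (List Bool)) (b : Fin 3)
    (s : Fin rows.length → Fin 3) :
    pk (rows.length + 1) (dg (GF (r :: rows)) (Fin.cons b s : Fin (rows.length + 1) → Fin 3)) =
      32 * (pk rows.length (dg (GF rows) s) + pk rows.length (pI (rowN r rows.length) s b)) +
        (PS (rowN r rows.length) s b).card := by
  rw [pk_succ, ← ext_comp]
  rw [dg_iso (finSuccEquiv _) (GF_cons_eq r rows), finSuccEquiv_zero, dg_none, pk_add]
  congr 2
  apply pk_congr
  intro i
  rw [dg_iso (finSuccEquiv _) (GF_cons_eq r rows), finSuccEquiv_succ, dg_some]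
  unfold pI
  congr 1
  have h2 : (b ≠ s i) = (s i ≠ b) := by rw [ne_comm]
  simp only [h2]

theorem pk_s_cons (n : ℕ) (a b : Fin 3) (s : Fin n → Fin 3) :
    pk (n + 1) (sI (Fin.cons b s : Fin (n + 1) → Fin 3) a) =
      32 * pk n (sI s a) + (if b = a then 1 else 0) := by
  rw [pk_succ]
  congr 1

theorem xx_same (A : Fin 3 → Fin 3 → Bool) : True := trivial

theorem xx_cons_same (r : List Bool) (rows : List (List Bool)) (b : Fin 3)
    (s : Fin rows.length → Fin 3) :
    xx (GF (r :: rows)) (Fin.cons b s : Fin (rows.length + 1) → Fin 3) b =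
      xx (GF rows) s b + new (PS (rowN r rows.length) s b).card := by
  have hnew : ∀ p : ℕ, new p = p + 16 * c2 p := fun p => rfl
  unfold xx
  rw [sd_cons, sd_cons, sd_same, sd_same, hnew]
  simp only [id]
  omega

theorem xx_cons_other (r : List Bool) (rows : List (List Bool)) (a b : Fin 3) (hab : a ≠ b)
    (s : Fin rows.length → Fin 3) :
    xx (GF (r :: rows)) (Fin.cons b s : Fin (rows.length + 1) → Fin 3) a =
      xx (GF rows) s a + ((PA (rowN r rows.length) s a).card +
        16 * ∑ v ∈ PA (rowN r rows.length) s a, dg (GF rows) s v) := by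
  unfold xx
  rw [sd_cons, sd_cons, sd_other_id _ _ b a hab, sd_other_c2 _ _ b a hab]
  omega

theorem trm_cons (rest : List (List Bool)) (r : List Bool) (rows : List (List Bool)) (b : Fin 3)
    (s : Fin rows.length → Fin 3) :
    trm tab K rest (r :: rows) (Fin.cons b s : Fin (rows.length + 1) → Fin 3) =
      if E2 (st (GF rows) s) + 2 * (PS (rowN r rows.length) s b).card ≤ K then
        evC tab K (rest.map pkl)
          (32 * pk rows.length (sI s 0) + (if b = 0 then 1 else 0))
          (32 * pk rows.length (sI s 1) + (if b = 1 then 1 else 0))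
          (32 * pk rows.length (sI s 2) + (if b = 2 then 1 else 0))
          (32 * (pk rows.length (dg (GF rows) s) + pk rows.length (pI (rowN r rows.length) s b)) +
            (PS (rowN r rows.length) s b).card)
          (E2 (st (GF rows) s) + 2 * (PS (rowN r rows.length) s b).card)
          (xx (GF (r :: rows)) (Fin.cons b s : Fin (rows.length + 1) → Fin 3) 0)
          (xx (GF (r :: rows)) (Fin.cons b s : Fin (rows.length + 1) → Fin 3) 1)
          (xx (GF (r :: rows)) (Fin.cons b s : Fin (rows.length + 1) → Fin 3) 2)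
      else 0 := by
  show (if E2 (st (GF (r :: rows)) (Fin.cons b s : Fin (rows.length + 1) → Fin 3)) ≤ K then
    evC tab K (rest.map pkl)
      (pk (rows.length + 1) (sI (Fin.cons b s : Fin (rows.length + 1) → Fin 3) 0))
      (pk (rows.length + 1) (sI (Fin.cons b s : Fin (rows.length + 1) → Fin 3) 1))
      (pk (rows.length + 1) (sI (Fin.cons b s : Fin (rows.length + 1) → Fin 3) 2))
      (pk (rows.length + 1) (dg (GF (r :: rows)) (Fin.cons b s : Fin (rows.length + 1) → Fin 3)))
      (E2 (st (GF (r :: rows)) (Fin.cons b s : Fin (rows.length + 1) → Fin 3)))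
      (xx (GF (r :: rows)) (Fin.cons b s : Fin (rows.length + 1) → Fin 3) 0)
      (xx (GF (r :: rows)) (Fin.cons b s : Fin (rows.length + 1) → Fin 3) 1)
      (xx (GF (r :: rows)) (Fin.cons b s : Fin (rows.length + 1) → Fin 3) 2)
  else 0) = _
  rw [pk_dg_cons, pk_s_cons, pk_s_cons, pk_s_cons, st_cons, E2_ext]

theorem trm_step (hK : K ≤ 30) (r : List Bool) (rest rows : List (List Bool))
    (hr : r.length ≤ rows.length) (hn : rows.length ≤ 30) (s : Fin rows.length → Fin 3) :
    trm tab K (r :: rest) rows s =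
      ∑ b : Fin 3, trm tab K rest (r :: rows) (Fin.cons b s : Fin (rows.length + 1) → Fin 3) := by
  rw [Fin.sum_univ_three, trm_cons, trm_cons, trm_cons]
  unfold trm
  by_cases h : E2 (st (GF rows) s) ≤ K
  · rw [if_pos h]
    have e1 : pkl r = pk rows.length (fun i => (rowN r rows.length i).toNat) := pkl_eq _ r hr
    have l1 : ∀ a, Nat.land (pkl r) (pk rows.length (sI s a)) =
        pk rows.length (aI (rowN r rows.length) s a) := by
      intro a
      rw [e1]; exact land_aI (rowN r rows.length) s a
    have l2 : ∀ a, Nat.sub (pkl r) (pk rows.length (aI (rowN r rows.length) s a)) =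
        pk rows.length (pI (rowN r rows.length) s a) := by
      intro a
      rw [e1]; exact sub_pI (rowN r rows.length) s a
    have l3 : ∀ a, Nat.mod (pk rows.length (pI (rowN r rows.length) s a)) 31 =
        (PS (rowN r rows.length) s a).card := fun a => mod_PS _ _ hn a
    have hnE : ∀ a e, nE (pkl r) (pk rows.length (sI s a)) e =
        e + 2 * (PS (rowN r rows.length) s a).card := by
      intro a e; unfold nE; rw [l1, l2, l3]; rfl
    have hnD : ∀ a D, nD (pkl r) (pk rows.length (sI s a)) D =
        32 * (D + pk rows.length (pI (rowN r rows.length) s a)) +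
          (PS (rowN r rows.length) s a).card := by
      intro a D; unfold nD; rw [l1, l2, l3]; rfl
    have hnX : ∀ a x, nX (pkl r) (pk rows.length (sI s a)) x =
        x + new (PS (rowN r rows.length) s a).card := by
      intro a x; unfold nX; rw [l1, l2, l3]; rfl
    have hiX : ∀ a x, iX (pkl r) (pk rows.length (sI s a)) (pk rows.length (dg (GF rows) s)) x =
        x + ((PA (rowN r rows.length) s a).card +
          16 * ∑ v ∈ PA (rowN r rows.length) s a, dg (GF rows) s v) := by
      intro a x; unfold iX inc; rw [l1]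
      have h1 : Nat.mod (pk rows.length (aI (rowN r rows.length) s a)) 31 =
          (PA (rowN r rows.length) s a).card := mod_PA _ _ hn a
      have h2 : Nat.mod (Nat.land (Nat.mul 31 (pk rows.length (aI (rowN r rows.length) s a)))
          (pk rows.length (dg (GF rows) s))) 31 = ∑ v ∈ PA (rowN r rows.length) s a, dg (GF rows) s v :=
        land_deg (GF rows) (rowN r rows.length) s (by omega) a
      rw [h1, h2]; rfl
    rw [List.map_cons, evC_cons]
    simp only [hnE, hnD, hnX, hiX]
    rw [xx_cons_same r rows 0 s, xx_cons_same r rows 1 s, xx_cons_same r rows 2 s,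
      xx_cons_other r rows 1 0 (by decide) s, xx_cons_other r rows 2 0 (by decide) s,
      xx_cons_other r rows 0 1 (by decide) s, xx_cons_other r rows 2 1 (by decide) s,
      xx_cons_other r rows 0 2 (by decide) s, xx_cons_other r rows 1 2 (by decide) s]
    simp only [if_true, add_assoc]
    simp
  · rw [if_neg h]
    rw [if_neg (by omega), if_neg (by omega), if_neg (by omega)]

theorem trm_sum (hK : K ≤ 30) : ∀ (rest rows : List (List Bool)), WFr (rest.reverse ++ rows) →
    (rest.reverse ++ rows).length ≤ 30 →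
    ∑ s : Fin rows.length → Fin 3, trm tab K rest rows s =
      ∑ s : Fin (rest.reverse ++ rows).length → Fin 3, trm tab K [] (rest.reverse ++ rows) s := by
  intro rest
  induction rest with
  | nil => intro rows _ _; rfl
  | cons r rest ih =>
    intro rows hw hl
    have e1 : (r :: rest).reverse ++ rows = rest.reverse ++ (r :: rows) := by
      rw [List.reverse_cons, List.append_assoc]; rfl
    rw [e1] at hw hl
    have key : ∑ s : Fin (r :: rows).length → Fin 3, trm tab K rest (r :: rows) s =
        ∑ s : Fin (rest.reverse ++ (r :: rows)).length → Fin 3,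
          trm tab K [] (rest.reverse ++ (r :: rows)) s := ih (r :: rows) hw hl
    rw [e1, ← key]
    have hw2 : ∀ (l : List (List Bool)) (q : List Bool) (m : List (List Bool)),
        WFr (l ++ q :: m) → q.length ≤ m.length := by
      intro l
      induction l with
      | nil => intro q m h; exact h.1
      | cons x l ih2 => intro q m h; exact ih2 q m h.2
    have hr := hw2 _ _ _ hw
    have hn : rows.length ≤ 30 := by
      simp only [List.length_append, List.length_cons] at hl
      omega
    have e2 : ∑ s : Fin (r :: rows).length → Fin 3, trm tab K rest (r :: rows) s =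
        ∑ s : Fin (rows.length + 1) → Fin 3, trm tab K rest (r :: rows) s := rfl
    rw [e2, sum_cons]
    apply sum_congr rfl
    intro s _
    exact trm_step tab K hK r rest rows hr hn s

def scL : List (ℕ × ℕ) → ℕ
  | [] => 0
  | x :: τ => sq (x.1 + 16 * x.2) + scL τ

theorem scL_st {V : Type} [Fintype V] (A : V → V → Bool) (s : V → Fin 3) :
    scL (st A s) = sc (xx A s 0) (xx A s 1) (xx A s 2) := by
  unfold st
  rw [List.ofFn_succ, List.ofFn_succ, List.ofFn_succ, List.ofFn_zero]
  rfl

theorem evT_main (hK : K ≤ 30) (rows : List (List Bool)) (hw : WFr rows)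
    (hl : rows.length ≤ 30) :
    evT tab K (rows.reverse.map pkl) =
      ∑ s : Fin rows.length → Fin 3,
        if E2 (st (GF rows) s) ≤ K then tab (scL (st (GF rows) s)) else 0 := by
  have h := trm_sum tab K hK rows.reverse [] (by rw [List.reverse_reverse, List.append_nil]; exact hw)
    (by rw [List.reverse_reverse, List.append_nil]; exact hl)
  rw [List.reverse_reverse, List.append_nil] at h
  have e1 : ∑ s : Fin ([] : List (List Bool)).length → Fin 3, trm tab K rows.reverse [] s =
      evC tab K (rows.reverse.map pkl) 0 0 0 0 0 0 0 0 := by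
    have hd : ∑ s : Fin ([] : List (List Bool)).length → Fin 3, trm tab K rows.reverse [] s =
      ∑ s : Fin 0 → Fin 3, trm tab K rows.reverse [] s := rfl
    rw [hd, Fintype.sum_unique]
    generalize (default : Fin 0 → Fin 3) = s0
    have hz : ∀ (w : ℕ → ℕ) (a : Fin 3), sd w (GF []) (s0 : Fin ([] : List (List Bool)).length → Fin 3) a = 0 := by
      intro w a
      unfold sd
      haveI : IsEmpty (Fin ([] : List (List Bool)).length) := (inferInstance : IsEmpty (Fin 0))
      exact Fintype.sum_empty _
    have hE : E2 (st (GF []) (s0 : Fin ([] : List (List Bool)).length → Fin 3)) = 0 := by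
      unfold E2 st
      rw [List.map_ofFn, List.sum_ofFn]
      simp only [Function.comp, hz]
      simp
    have hx : ∀ a, xx (GF []) (s0 : Fin ([] : List (List Bool)).length → Fin 3) a = 0 := by
      intro a
      unfold xx
      rw [hz, hz]
    show (if E2 (st (GF []) (s0 : Fin ([] : List (List Bool)).length → Fin 3)) ≤ K then
      evC tab K (rows.reverse.map pkl) 0 0 0 0
        (E2 (st (GF []) (s0 : Fin ([] : List (List Bool)).length → Fin 3)))
        (xx (GF []) (s0 : Fin ([] : List (List Bool)).length → Fin 3) 0)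
        (xx (GF []) (s0 : Fin ([] : List (List Bool)).length → Fin 3) 1)
        (xx (GF []) (s0 : Fin ([] : List (List Bool)).length → Fin 3) 2) else 0) = _
    rw [hE, hx, hx, hx, if_pos (Nat.zero_le _)]
  rw [evT_eq, ← e1, h]
  apply sum_congr rfl
  intro s _
  unfold trm
  rw [scL_st]
  rfl

end Step

end Pool.Agent.Helper95.GQ
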