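import Pool.Agent.Helper95.GQ.Basic

/-!
Options, table of values, closure and game step for `q` colours.
-/

namespace Pool.Agent.Helper95.GQ

open Finset
open Pool.Agent.Helper95.GC (c2 addV IsG Iso deg Dk okB)

def optM (M D C : ℕ) : List (ℕ × ℕ) :=
  (List.range M).flatMap (fun p =>
    ((List.range (D + 1)).filter (fun a => okB (p + 1) a D C)).map (fun a => (p + 1, a)))

theorem mem_optM {M D C p a : ℕ} (hp : 1 ≤ p) (hM : p ≤ M) (h : okB p a D C = true) :
    (p, a) ∈ optM M D C := by
  unfold optM
  rw [List.mem_flatMap]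
  refine ⟨p - 1, List.mem_range.2 (by omega), ?_⟩
  have hp1 : p - 1 + 1 = p := by omega
  rw [hp1, List.mem_map]
  refine ⟨a, ?_, rfl⟩
  rw [List.mem_filter, List.mem_range]
  refine ⟨?_, h⟩
  unfold okB at h
  rw [Bool.and_eq_true, decide_eq_true_eq] at h
  omega

def optL (M : ℕ) (x : ℕ × ℕ) : List (ℕ × ℕ) := (0, 0) :: (M + 1, 0) :: optM M x.1 x.2

def tups (M : ℕ) : List (ℕ × ℕ) → List (List (ℕ × ℕ))
  | [] => [[]]
  | x :: τ => (optL M x).flatMap (fun o => (tups M τ).map (fun t => o :: t))

theorem mem_tups (M : ℕ) : ∀ (τ o : List (ℕ × ℕ)), τ.length = o.length →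
    (∀ i (h1 : i < τ.length) (h2 : i < o.length), o[i] ∈ optL M τ[i]) → o ∈ tups M τ := by
  intro τ
  induction τ with
  | nil =>
    intro o h _
    have : o = [] := List.length_eq_zero_iff.1 h.symm
    subst this; simp [tups]
  | cons x τ ih =>
    intro o h h2
    cases o with
    | nil => simp at h
    | cons y o =>
      unfold tups
      rw [List.mem_flatMap]
      refine ⟨y, h2 0 (by simp) (by simp), ?_⟩
      rw [List.mem_map]
      refine ⟨o, ih o (by simpa using h) ?_, rfl⟩
      intro i h3 h4
      have := h2 (i + 1) (by simpa using h3) (by simpa using h4)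
      simpa using this

/-! ### table of values -/

inductive VT where
  | nil : VT
  | node : VT → ℕ → List (ℕ × ℕ) → ℤ → ℤ → ℤ → VT → VT

def vfind : VT → ℕ → Option (List (ℕ × ℕ) × ℤ × ℤ × ℤ)
  | .nil, _ => none
  | .node l k τ a b c r, t =>
    bif Nat.blt t k then vfind l t else bif Nat.blt k t then vfind r t else some (τ, a, b, c)

def vall (f : List (ℕ × ℕ) → Bool) : VT → Bool
  | .nil => true
  | .node l _ τ _ _ _ r => vall f l && (f τ && vall f r)

theorem vall_find (f : List (ℕ × ℕ) → Bool) : ∀ (T : VT), vall f T = true → ∀ t x,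
    vfind T t = some x → f x.1 = true := by
  intro T
  induction T with
  | nil => intro _ t x h; simp [vfind] at h
  | node l k τ a b c r ihl ihr =>
    intro h t x hx
    unfold vall at h
    rw [Bool.and_eq_true, Bool.and_eq_true] at h
    obtain ⟨h1, h2, h3⟩ := h
    unfold vfind at hx
    cases hb : Nat.blt t k
    · rw [hb, cond_false] at hx
      cases hc : Nat.blt k t
      · rw [hc, cond_false] at hx
        simp only [Option.some.injEq] at hx
        rw [← hx]; exact h2
      · rw [hc, cond_true] at hx
        exact ihr h3 t x hx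
    · rw [hb, cond_true] at hx
      exact ihl h1 t x hx

def code : List (ℕ × ℕ) → ℕ
  | [] => 1
  | x :: τ => Nat.add x.1 (Nat.add (Nat.mul 16 x.2) (Nat.mul 256 (code τ)))

def eqL : List (ℕ × ℕ) → List (ℕ × ℕ) → Bool
  | [], [] => true
  | x :: a, y :: b => Nat.beq x.1 y.1 && (Nat.beq x.2 y.2 && eqL a b)
  | [], _ :: _ => false
  | _ :: _, [] => false

theorem eqL_eq (a b : List (ℕ × ℕ)) (h : eqL a b = true) : a = b := by
  induction a generalizing b with
  | nil => cases b with
    | nil => rfl
    | cons => simp [eqL] at h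
  | cons x a ih =>
    cases b with
    | nil => simp [eqL] at h
    | cons y b =>
      unfold eqL at h
      rw [Bool.and_eq_true, Bool.and_eq_true] at h
      have h1 := Nat.eq_of_beq_eq_true h.1
      have h2 := Nat.eq_of_beq_eq_true h.2.1
      rw [ih b h.2.2, Prod.ext h1 h2]

def Valid (T : VT) (τ : List (ℕ × ℕ)) : Prop := ∃ r, vfind T (code τ) = some (τ, r)

def validB (T : VT) (τ : List (ℕ × ℕ)) : Bool :=
  match vfind T (code τ) with
  | none => false
  | some x => eqL x.1 τ

theorem valid_of (T : VT) (τ : List (ℕ × ℕ)) (h : validB T τ = true) : Valid T τ := by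
  unfold validB at h
  split at h
  · simp at h
  · next x hx =>
    have := eqL_eq _ _ h
    exact ⟨x.2, by rw [hx, ← this]⟩

def phiT (T : VT) (τ : List (ℕ × ℕ)) : ℤ :=
  match vfind T (code τ) with
  | none => 0
  | some x => x.2.1

def ppT (T : VT) (τ : List (ℕ × ℕ)) : ℤ :=
  match vfind T (code τ) with
  | none => 0
  | some x => x.2.2.1

def pmT (T : VT) (τ : List (ℕ × ℕ)) : ℤ :=
  match vfind T (code τ) with
  | none => 0
  | some x => x.2.2.2

/-! ### closure and game -/

def mM (KK : ℕ) (τ : List (ℕ × ℕ)) : ℕ := (KK - E2 τ) / 2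

def closeB (q KK : ℕ) (T : VT) (τ : List (ℕ × ℕ)) : Bool :=
  (tups (mM KK τ) τ).all (fun o => (List.range q).all (fun b =>
    Nat.blt KK (E2 τ + 2 * (E2 o - pAt o b)) || validB T (tgt τ o b)))

def gsum (q KK : ℕ) (f : List (ℕ × ℕ) → ℤ) (τ o : List (ℕ × ℕ)) : ℤ :=
  ((List.range q).map (fun b =>
    bif Nat.ble (E2 τ + 2 * (E2 o - pAt o b)) KK then f (tgt τ o b) else 0)).sum

def gameB (q KK : ℕ) (f g : List (ℕ × ℕ) → ℤ) (τ : List (ℕ × ℕ)) : Bool :=
  (tups (mM KK τ) τ).all (fun o => Nat.beq (E2 o) 0 || decide (gsum q KK f τ o ≤ q * g τ))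

/-- value of a table with the convention `0` for too many edges -/
def ex (KK : ℕ) (f : List (ℕ × ℕ) → ℤ) (τ : List (ℕ × ℕ)) : ℤ := if E2 τ ≤ KK then f τ else 0

section Step
variable {q : ℕ} {V : Type} [Fintype V]

/-- the actual move with large numbers of neighbours replaced by `M + 1` -/
def oM (M : ℕ) (A : V → V → Bool) (N : V → Bool) (s : V → Fin q) : List (ℕ × ℕ) :=
  List.ofFn (fun a => if (PA N s a).card ≤ M then
    ((PA N s a).card, ∑ v ∈ PA N s a, dg A s v) else (M + 1, 0))

theorem oM_mem (M : ℕ) (A : V → V → Bool) (N : V → Bool) (s : V → Fin q) :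
    oM M A N s ∈ tups M (st A s) := by
  apply mem_tups
  · simp [st, oM]
  · intro i h1 h2
    have hi : i < q := by simpa [st] using h1
    simp only [st, oM, List.getElem_ofFn]
    unfold optL
    by_cases h : (PA N s ⟨i, hi⟩).card ≤ M
    · rw [if_pos h]
      by_cases h0 : (PA N s ⟨i, hi⟩).card = 0
      · rw [card_eq_zero] at h0
        rw [h0]; simp
      · apply List.mem_cons_of_mem
        apply List.mem_cons_of_mem
        exact mem_optM (by omega) h (ok_PA A N _ s)
    · rw [if_neg h]; simp

/-- sum of the moves of the other colours -/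
theorem E2_sub (f : Fin q → ℕ × ℕ) (b : Fin q) :
    E2 (List.ofFn f) - pAt (List.ofFn f) b = ∑ a ∈ univ.erase b, (f a).1 := by
  unfold E2
  rw [pAt_ofFn, List.map_ofFn, List.sum_ofFn, ← add_sum_erase univ _ (mem_univ b)]
  simp

theorem card_PS' (N : V → Bool) (s : V → Fin q) (b : Fin q) :
    (PS N s b).card = ∑ a ∈ univ.erase b, (PA N s a).card := by
  have h1 := card_PS N s b
  rw [← add_sum_erase univ _ (mem_univ b)] at h1
  omega

theorem oM_cases (KK : ℕ) (A : V → V → Bool) (N : V → Bool) (s : V → Fin q) (b : Fin q)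
    (hE : E2 (st A s) ≤ KK) :
    (E2 (st A s) + 2 * (E2 (oM (mM KK (st A s)) A N s) - pAt (oM (mM KK (st A s)) A N s) b) ≤ KK ∧
      E2 (st (addV A N) (ext b s)) ≤ KK ∧
      tgt (st A s) (oM (mM KK (st A s)) A N s) b = st (addV A N) (ext b s)) ∨
    (KK < E2 (st A s) + 2 * (E2 (oM (mM KK (st A s)) A N s) - pAt (oM (mM KK (st A s)) A N s) b) ∧
      KK < E2 (st (addV A N) (ext b s))) := by
  set M := mM KK (st A s) with hM
  have hM2 : KK - E2 (st A s) < 2 * (M + 1) := by rw [hM]; unfold mM; omega
  rw [E2_ext]
  unfold oM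
  rw [E2_sub]
  by_cases hall : ∀ a ∈ univ.erase b, (PA N s a).card ≤ M
  · have e1 : ∑ a ∈ univ.erase b, (if (PA N s a).card ≤ M then
        ((PA N s a).card, ∑ v ∈ PA N s a, dg A s v) else (M + 1, 0)).1 = (PS N s b).card := by
      rw [card_PS']
      apply sum_congr rfl
      intro a ha
      rw [if_pos (hall a ha)]
    rw [e1]
    by_cases hk : E2 (st A s) + 2 * (PS N s b).card ≤ KK
    · left
      refine ⟨hk, hk, ?_⟩
      rw [st_ext]
      unfold tgt
      rw [E2_sub, e1]
      unfold oL
      rw [E2_sub]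
      simp only
      rw [← card_PS']
      apply upd_congr
      · simp [st]
      · simp [st]
      · intro i h1 h2 hib
        have hi : i < q := by simpa using h1
        simp only [List.getElem_ofFn]
        rw [if_pos]
        apply hall
        rw [mem_erase]
        exact ⟨fun h => hib (Fin.val_eq_of_eq h), mem_univ _⟩
    · right
      exact ⟨by omega, by omega⟩
  · right
    push Not at hall
    obtain ⟨a, ha, hlt⟩ := hall
    constructor
    · have h1 : M + 1 ≤ ∑ a ∈ univ.erase b, (if (PA N s a).card ≤ M then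
        ((PA N s a).card, ∑ v ∈ PA N s a, dg A s v) else (M + 1, 0)).1 := by
        have := single_le_sum (f := fun a => (if (PA N s a).card ≤ M then
          ((PA N s a).card, ∑ v ∈ PA N s a, dg A s v) else (M + 1, 0)).1)
          (fun a _ => Nat.zero_le _) ha
        rw [if_neg (by omega)] at this
        exact this
      omega
    · have h1 : M + 1 ≤ (PS N s b).card := by
        rw [card_PS']
        have := single_le_sum (f := fun a => (PA N s a).card) (fun a _ => Nat.zero_le _) ha
        omega
      omega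

/-- all states of `A` are in the table or have too many edges -/
def Val (q KK : ℕ) (T : VT) {V : Type} [Fintype V] (A : V → V → Bool) : Prop :=
  ∀ s : V → Fin q, E2 (st A s) ≤ KK → Valid T (st A s)

theorem val_addV {KK : ℕ} {T : VT} (hc : vall (closeB q KK T) T = true)
    {A : V → V → Bool} (hv : Val q KK T A) (N : V → Bool) : Val q KK T (addV A N) := by
  intro s hs2
  have hs : s = ext (s none) (fun v => s (some v)) := by
    funext o; cases o <;> rfl
  rw [hs] at hs2 ⊢
  generalize (fun v => s (some v)) = s' at hs2 ⊢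
  generalize s none = b at hs2 ⊢
  have hE : E2 (st A s') ≤ KK := by
    have := E2_ext A N s' b
    omega
  obtain ⟨r, hr⟩ := hv s' hE
  have h1 : closeB q KK T (st A s') = true := vall_find _ T hc _ _ hr
  unfold closeB at h1
  rw [List.all_eq_true] at h1
  have h2 := h1 _ (oM_mem (mM KK (st A s')) A N s')
  rw [List.all_eq_true] at h2
  have h3 := h2 b (List.mem_range.2 b.2)
  rcases oM_cases KK A N s' b hE with ⟨c1, _, c3⟩ | ⟨_, c2⟩
  · rw [Bool.or_eq_true] at h3
    rcases h3 with h3 | h3
    · have := (GC.blt_iff _ _).1 h3; omega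
    · rw [c3] at h3
      exact valid_of T _ h3
  · omega

variable [DecidableEq V]

theorem game_step {KK : ℕ} {T : VT} {f g : List (ℕ × ℕ) → ℤ}
    (hg : vall (gameB q KK f g) T = true) {A : V → V → Bool} (hv : Val q KK T A)
    (N : V → Bool) (hN : ∃ v, N v = true) :
    SS q (addV A N) (ex KK f) ≤ q * SS q A (ex KK g) := by
  rw [SS_addV]
  unfold SS
  rw [mul_sum]
  apply sum_le_sum
  intro s _
  by_cases hE : E2 (st A s) ≤ KK
  · obtain ⟨r, hr⟩ := hv s hE
    have h1 : gameB q KK f g (st A s) = true := vall_find _ T hg _ _ hr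
    unfold gameB at h1
    rw [List.all_eq_true] at h1
    have h2 := h1 _ (oM_mem (mM KK (st A s)) A N s)
    rw [Bool.or_eq_true, decide_eq_true_eq] at h2
    have hexg : ex KK g (st A s) = g (st A s) := by unfold ex; rw [if_pos hE]
    rw [hexg]
    rcases h2 with h2 | h2
    · exfalso
      have h3 := Nat.eq_of_beq_eq_true h2
      obtain ⟨v, hv1⟩ := hN
      unfold oM E2 at h3
      rw [List.map_ofFn, List.sum_ofFn] at h3
      have h4 := (sum_eq_zero_iff.1 h3) (s v) (mem_univ _)
      simp only [Function.comp] at h4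
      have h5 : v ∈ PA N s (s v) := by simp [PA, hv1]
      have h6 : 0 < (PA N s (s v)).card := card_pos.2 ⟨v, h5⟩
      split_ifs at h4
      simp only at h4
      omega
    · have e1 : ∑ b : Fin q, ex KK f (st (addV A N) (ext b s)) =
          gsum q KK f (st A s) (oM (mM KK (st A s)) A N s) := by
        unfold gsum
        have e2 : ((List.range q).map (fun b =>
            bif Nat.ble (E2 (st A s) + 2 * (E2 (oM (mM KK (st A s)) A N s) -
              pAt (oM (mM KK (st A s)) A N s) b)) KK then
              f (tgt (st A s) (oM (mM KK (st A s)) A N s) b) else 0)).sum =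
            ∑ b ∈ Finset.range q, (bif Nat.ble (E2 (st A s) + 2 * (E2 (oM (mM KK (st A s)) A N s) -
              pAt (oM (mM KK (st A s)) A N s) b)) KK then
              f (tgt (st A s) (oM (mM KK (st A s)) A N s) b) else 0) := by
          rfl
        rw [e2, ← Fin.sum_univ_eq_sum_range (fun b => (bif Nat.ble (E2 (st A s) +
          2 * (E2 (oM (mM KK (st A s)) A N s) - pAt (oM (mM KK (st A s)) A N s) b)) KK then
              f (tgt (st A s) (oM (mM KK (st A s)) A N s) b) else 0))]
        apply sum_congr rfl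
        intro b _
        unfold ex
        rcases oM_cases KK A N s b hE with ⟨c1, c2, c3⟩ | ⟨c1, c2⟩
        · rw [if_pos c2, Nat.ble_eq_true_of_le c1, cond_true, c3]
        · rw [if_neg (by omega)]
          have : Nat.ble (E2 (st A s) + 2 * (E2 (oM (mM KK (st A s)) A N s) -
              pAt (oM (mM KK (st A s)) A N s) b)) KK = false := by
            rw [Bool.eq_false_iff]
            intro h
            have := Nat.le_of_ble_eq_true h
            omega
          rw [this, cond_false]
      rw [e1]
      exact h2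
  · have h1 : ∀ b : Fin q, ex KK f (st (addV A N) (ext b s)) = 0 := by
      intro b
      have := E2_ext A N s b
      unfold ex
      rw [if_neg (by omega)]
    simp only [h1]
    unfold ex
    rw [if_neg hE]
    simp

end Step

theorem val_iso {q : ℕ} {V W : Type} [Fintype V] [Fintype W] {KK : ℕ} {T : VT}
    {A : V → V → Bool} {B : W → W → Bool} (h : Iso A B) (hv : Val q KK T B) : Val q KK T A := by
  obtain ⟨e, he⟩ := h
  intro s
  have := st_iso e he (s ∘ e.symm)
  have h2 : (s ∘ e.symm) ∘ e = s := by funext v; simp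
  rw [h2] at this
  rw [this]
  exact hv _

theorem val_all {q KK : ℕ} {T : VT} (hc : vall (closeB q KK T) T = true)
    (h0 : validB T (List.replicate q (0, 0)) = true) : ∀ n : ℕ, ∀ (V : Type) [Fintype V]
    [DecidableEq V], Fintype.card V = n → ∀ A : V → V → Bool, IsG A → Val q KK T A := by
  intro n
  induction n with
  | zero =>
    intro V _ _ hn A _ s _
    haveI : IsEmpty V := Fintype.card_eq_zero_iff.1 hn
    have : st A s = List.replicate q (0, 0) := by
      unfold st
      rw [← List.ofFn_const]
      congr 1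
      funext a
      simp [sd]
    rw [this]
    exact valid_of T _ h0
  | succ n ih =>
    intro V _ _ hn A hA
    have hne : 0 < Fintype.card V := by omega
    obtain ⟨x⟩ := Fintype.card_pos_iff.1 hne
    have hcard : Fintype.card {v : V // v ≠ x} = n := by
      rw [Fintype.card_subtype_compl]
      simp [hn]
    exact val_iso (GC.peel_iso hA x) (val_addV hc (ih _ hcard _ (GC.rm_isG hA x)) _)

end Pool.Agent.Helper95.GQ
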