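import Pool.Agent.Helper95.GQ.Bound
import Pool.Agent.Helper95.GC.EFin

/-!
Hoffman bound with kernels depending on the cut, cut statistics of edge functions.
-/

namespace Pool.Agent.Helper95.GQ

open Finset
open Pool.Agent.Helper16.EX
open Pool.Agent.Helper95.GC (IsG adjS adjS_isG adjS_ne c2)
open Pool.Agent.Helper64.CX (Cfg Cross Bound Pr_enc)

/-- Hoffman bound with kernels which may depend on the cut -/
theorem hoff_gen {E : Type} [Fintype E] [DecidableEq E] {S : Type} [Fintype S] [Nonempty S]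
    (N : S → E → Bool) (φ : S → (E → Bool) → ℝ) (r : ℝ) (hr : 0 < r)
    (h0 : ∀ s, φ s (fun _ => false) = r)
    (h1 : ∀ R : E → Bool, R ≠ (fun _ => false) →
      |∑ s, φ s (fun e => R e && N s e)| ≤ Fintype.card S)
    (F G : Finset (E → Bool))
    (hFG : ∀ A ∈ F, ∀ B ∈ G, ∀ s, ∃ e, N s e = false ∧ A e ≠ B e) :
    r ^ 2 * ((F.card : ℝ) * G.card) ≤
      ((2 : ℝ) ^ Fintype.card E - F.card) * ((2 : ℝ) ^ Fintype.card E - G.card) := by
  classical
  set M : ℝ := (2 : ℝ) ^ Fintype.card E with hM
  have hMpos : 0 < M := by positivity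
  set c : ℝ := (Fintype.card S : ℝ) with hc
  have hcpos : 0 < c := by
    rw [hc]; exact_mod_cast Fintype.card_pos
  have hrel : ∑ R : E → Bool, (∑ s, φ s (fun e => R e && N s e)) * (hat F R * hat G R) = 0 := by
    simp_rw [Finset.sum_mul]
    rw [Finset.sum_comm]
    exact Finset.sum_eq_zero (fun s _ => relation (N s) (φ s) F G (fun A hA B hB => hFG A hA B hB s))
  set z : E → Bool := fun _ => false with hz
  have hsplit := Finset.add_sum_erase univ
    (fun R : E → Bool => (∑ s, φ s (fun e => R e && N s e)) * (hat F R * hat G R)) (mem_univ z)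
  rw [hrel] at hsplit
  have hz0 : (∑ s, φ s (fun e => z e && N s e)) = r * c := by
    have : ∀ s, φ s (fun e => z e && N s e) = r := by
      intro s; rw [← h0 s]; congr 1
    simp [this, hc, mul_comm]
  simp only [hz0] at hsplit
  rw [hz, hat_zero, hat_zero, ← hz] at hsplit
  set a : ℝ := (F.card : ℝ) with ha
  set b : ℝ := (G.card : ℝ) with hb
  have ha0 : 0 ≤ a := by positivity
  have hb0 : 0 ≤ b := by positivity
  have haM : a ≤ M := by
    have : (F.card : ℝ) ≤ (Fintype.card (E → Bool) : ℝ) := by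
      exact_mod_cast Finset.card_le_univ F
    simpa [hM] using this
  have hbM : b ≤ M := by
    have : (G.card : ℝ) ≤ (Fintype.card (E → Bool) : ℝ) := by
      exact_mod_cast Finset.card_le_univ G
    simpa [hM] using this
  have hbound : r * c * (a * b) ≤ c * ∑ R ∈ univ.erase z, |hat F R| * |hat G R| := by
    have h2 : r * c * (a * b) = - ∑ R ∈ univ.erase z,
        (∑ s, φ s (fun e => R e && N s e)) * (hat F R * hat G R) := by linarith
    rw [h2, ← Finset.sum_neg_distrib, Finset.mul_sum]
    refine Finset.sum_le_sum (fun R hR => ?_)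
    have h3 := h1 R (Finset.mem_erase.1 hR).1
    calc -((∑ s, φ s (fun e => R e && N s e)) * (hat F R * hat G R))
        ≤ |(∑ s, φ s (fun e => R e && N s e)) * (hat F R * hat G R)| := neg_le_abs _
      _ = |∑ s, φ s (fun e => R e && N s e)| * (|hat F R| * |hat G R|) := by
          rw [abs_mul, abs_mul]
      _ ≤ c * (|hat F R| * |hat G R|) := by
          apply mul_le_mul_of_nonneg_right h3; positivity
  have hbound2 : r * (a * b) ≤ ∑ R ∈ univ.erase z, |hat F R| * |hat G R| := by
    have : c * (r * (a * b)) ≤ c * ∑ R ∈ univ.erase z, |hat F R| * |hat G R| := by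
      linarith
    exact le_of_mul_le_mul_left this hcpos
  have hpa : ∑ R ∈ univ.erase z, |hat F R| ^ 2 = M * a - a ^ 2 := by
    have h4 := Finset.add_sum_erase univ (fun R : E → Bool => hat F R ^ 2) (mem_univ z)
    rw [parseval] at h4
    beta_reduce at h4
    rw [hz, hat_zero, ← hz] at h4
    simp_rw [sq_abs]
    linarith
  have hpb : ∑ R ∈ univ.erase z, |hat G R| ^ 2 = M * b - b ^ 2 := by
    have h4 := Finset.add_sum_erase univ (fun R : E → Bool => hat G R ^ 2) (mem_univ z)
    rw [parseval] at h4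
    beta_reduce at h4
    rw [hz, hat_zero, ← hz] at h4
    simp_rw [sq_abs]
    linarith
  have hcs := Finset.sum_mul_sq_le_sq_mul_sq (univ.erase z) (fun R : E → Bool => |hat F R|)
    (fun R : E → Bool => |hat G R|)
  rw [hpa, hpb] at hcs
  have hsq : (r * (a * b)) ^ 2 ≤ (M * a - a ^ 2) * (M * b - b ^ 2) :=
    le_trans (pow_le_pow_left₀ (by positivity) hbound2 2) hcs
  by_cases hab : a * b = 0
  · rw [hab, mul_zero]
    exact mul_nonneg (by linarith) (by linarith)
  have habpos : 0 < a * b := lt_of_le_of_ne (mul_nonneg ha0 hb0) (Ne.symm hab)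
  have : (a * b) * (r ^ 2 * (a * b)) ≤ (a * b) * ((M - a) * (M - b)) := by nlinarith
  exact le_of_mul_le_mul_left this habpos

section Adj
variable {q n : ℕ}

/-- the edges cut by a colouring -/
def cutQ (s : Fin n → Fin q) (e : Edg n) : Bool := decide (s e.1.1 ≠ s e.1.2)

theorem adjS_cut (R : Edg n → Bool) (s : Fin n → Fin q) (u v : Fin n) (h : s u ≠ s v) :
    adjS (fun e => R e && cutQ s e) v u = adjS R v u := by
  unfold adjS cutQ
  rcases lt_trichotomy v u with h1 | h1 | h1
  · rw [dif_pos h1, dif_pos h1]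
    simp [h.symm]
  · subst h1; exact absurd rfl h
  · rw [dif_neg (not_lt.2 h1.le), dif_pos h1, dif_neg (not_lt.2 h1.le), dif_pos h1]
    simp [h]

theorem st_cut (R : Edg n → Bool) (s : Fin n → Fin q) :
    st (adjS (fun e => R e && cutQ s e)) s = st (adjS R) s := by
  have h1 : ∀ v, dg (adjS (fun e => R e && cutQ s e)) s v = dg (adjS R) s v := by
    intro v
    unfold dg
    apply sum_congr rfl
    intro u _
    by_cases h : s u ≠ s v
    · rw [adjS_cut R s u v h]
    · simp [h]
  unfold st sd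
  simp only [h1]

theorem st_zero (s : Fin n → Fin q) :
    st (adjS (fun _ => false)) s = List.replicate q (0, 0) := by
  have h1 : ∀ v, dg (adjS (fun _ => false)) s v = 0 := by
    intro v
    unfold dg adjS
    apply sum_eq_zero
    intro u _
    simp
  unfold st sd
  rw [← List.ofFn_const]
  congr 1
  funext a
  simp [h1, c2]

end Adj

/-- a general criterion: the bound for three colours from a certificate -/
theorem hoff_three_of {p : Par} (n : ℕ) (hA : 0 < p.AA)
    (h0 : ex p.KK p.phi (List.replicate 3 (0, 0)) = 63 * p.AA)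
    (hb : ∀ A : Fin n → Fin n → Bool, IsG A → (∃ u v, A u v = true) →
      SS 3 A (ex p.KK p.phi) ≤ p.AA * 3 ^ n ∧ - SS 3 A (ex p.KK p.phi) ≤ p.AA * 3 ^ n)
    (F G : Finset (Cfg n)) (hFG : Cross 3 n F G) :
    3969 * ((F.card : ℝ) * G.card) ≤
      ((2 : ℝ) ^ (n.choose 2) - F.card) * ((2 : ℝ) ^ (n.choose 2) - G.card) := by
  classical
  have hAA : (0 : ℝ) < (p.AA : ℝ) := by exact_mod_cast hA
  set F' : Finset (Edg n → Bool) := univ.filter (fun a => cfg a ∈ F) with hF'
  set G' : Finset (Edg n → Bool) := univ.filter (fun a => cfg a ∈ G) with hG'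
  have hcard : ∀ H : Finset (Cfg n), (univ.filter (fun a : Edg n → Bool => cfg a ∈ H)).card = H.card := by
    intro H
    refine Finset.card_bij (fun a _ => cfg a) ?_ ?_ ?_
    · intro a ha; exact (Finset.mem_filter.1 ha).2
    · intro a _ b _ h; exact cfg_inj h
    · intro B hB
      obtain ⟨a, ha⟩ := cfg_bij.2 B
      exact ⟨a, by simp [ha, hB], ha⟩
  have hcr : ∀ A ∈ F', ∀ B ∈ G', ∀ s : Fin n → Fin 3, ∃ e, cutQ s e = false ∧ A e ≠ B e := by
    intro A hA B hB s
    by_contra hne
    push Not at hne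
    refine hFG (cfg A) (Finset.mem_filter.1 hA).2 (cfg B) (Finset.mem_filter.1 hB).2 ?_
    refine ⟨s, ?_⟩
    rw [cfg, cfg, Pr_enc]
    intro i j hij hab hc
    have h2 : A ⟨(i, j), hij⟩ ≠ B ⟨(i, j), hij⟩ := by
      simpa [adj, hij] using hab
    apply h2
    apply hne
    unfold cutQ
    simp [hc]
  have h := hoff_gen (E := Edg n) (S := Fin n → Fin 3) (fun s e => cutQ s e)
    (fun s H => ((ex p.KK p.phi (st (adjS H) s) : ℤ) : ℝ) / p.AA) 63 (by norm_num)
    (by
      intro s
      rw [st_zero, h0]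
      push_cast
      field_simp)
    (by
      intro R hR
      obtain ⟨h1, h2⟩ := hb (adjS R) (adjS_isG R) (adjS_ne R hR)
      have e1 : ∑ s : Fin n → Fin 3,
          ((ex p.KK p.phi (st (adjS (fun e => R e && cutQ s e)) s) : ℤ) : ℝ) / p.AA =
          ((SS 3 (adjS R) (ex p.KK p.phi) : ℤ) : ℝ) / p.AA := by
        unfold SS
        rw [Int.cast_sum, sum_div]
        apply sum_congr rfl
        intro s _
        rw [st_cut]
      rw [e1]
      have hc : ((Fintype.card (Fin n → Fin 3) : ℕ) : ℝ) = 3 ^ n := by simp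
      rw [hc]
      have h1' : ((SS 3 (adjS R) (ex p.KK p.phi) : ℤ) : ℝ) ≤ p.AA * 3 ^ n := by exact_mod_cast h1
      have h2' : - ((SS 3 (adjS R) (ex p.KK p.phi) : ℤ) : ℝ) ≤ p.AA * 3 ^ n := by exact_mod_cast h2
      rw [abs_le]
      constructor
      · rw [le_div_iff₀ hAA]; linarith
      · rw [div_le_iff₀ hAA]; linarith) F' G' hcr
  rw [hF', hG', hcard F, hcard G, card_edg] at h
  norm_num at h
  exact h

end Pool.Agent.Helper95.GQ
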