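import Pool.Agent.Helper95.GQ.Ev3

/-!
Parameters of a certificate for three colours, table check, digits of the packed sum.
-/

namespace Pool.Agent.Helper95.GQ

open Finset
open Pool.Agent.Helper95.GC (addV IsG Iso pkl GF WFr digits4)

structure Par where
  KK : ℕ
  T : VT
  tab : ℕ → ℕ
  B : ℕ
  O : ℕ
  M : ℕ
  AA : ℕ

namespace Par

def phi (p : Par) : List (ℕ × ℕ) → ℤ := phiT p.T
def pp (p : Par) : List (ℕ × ℕ) → ℤ := ppT p.T
def pm (p : Par) : List (ℕ × ℕ) → ℤ := pmT p.T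

def tabB (p : Par) (τ : List (ℕ × ℕ)) : Bool :=
  decide (0 ≤ p.phi τ + p.O) && (decide (p.phi τ + p.O < p.M) &&
  (decide (0 ≤ p.pp τ) && (decide (p.pp τ < p.M) &&
  (decide (0 ≤ p.pm τ) && (decide (p.pm τ < p.M) &&
  decide (p.tab (scL τ) = 1 + p.B * (p.phi τ + p.O).toNat + p.B ^ 2 * (p.pp τ).toNat +
    p.B ^ 3 * (p.pm τ).toNat))))))

structure OK (p : Par) : Prop where
  hK : p.KK ≤ 30
  hc : vall (closeB 3 p.KK p.T) p.T = true
  h0 : validB p.T (List.replicate 3 (0, 0)) = true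
  g1 : vall (gameB 3 p.KK p.phi p.pp) p.T = true
  g2 : vall (gameB 3 p.KK p.pp p.pp) p.T = true
  g3 : vall (gameB 3 p.KK (fun σ => - p.phi σ) p.pm) p.T = true
  g4 : vall (gameB 3 p.KK p.pm p.pm) p.T = true
  ht : vall p.tabB p.T = true
  hM : 1 ≤ p.M

end Par

/-- the packed sum of a graph -/
def XX (p : Par) (rows : List (List Bool)) : ℕ := evT p.tab p.KK (rows.reverse.map pkl)

theorem Par.OK.tab {p : Par} (hp : p.OK) {τ : List (ℕ × ℕ)} (h : Valid p.T τ) :
    0 ≤ p.phi τ + p.O ∧ p.phi τ + p.O < p.M ∧ 0 ≤ p.pp τ ∧ p.pp τ < p.M ∧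
      0 ≤ p.pm τ ∧ p.pm τ < p.M ∧
      p.tab (scL τ) = 1 + p.B * (p.phi τ + p.O).toNat + p.B ^ 2 * (p.pp τ).toNat +
        p.B ^ 3 * (p.pm τ).toNat := by
  obtain ⟨r, hr⟩ := h
  have := vall_find _ _ hp.ht _ _ hr
  unfold Par.tabB at this
  simp only [Bool.and_eq_true, decide_eq_true_eq] at this
  exact this

theorem XX_digits (p : Par) (hp : p.OK) (rows : List (List Bool)) (hw : WFr rows)
    (hl : rows.length ≤ 30) (hv : Val 3 p.KK p.T (GF rows)) (hb : 3 ^ rows.length * p.M < p.B) :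
    SS 3 (GF rows) (ex p.KK p.phi) =
      ((XX p rows / p.B % p.B : ℕ) : ℤ) - p.O * ((XX p rows % p.B : ℕ) : ℤ) ∧
    SS 3 (GF rows) (ex p.KK p.pp) = ((XX p rows / p.B ^ 2 % p.B : ℕ) : ℤ) ∧
    SS 3 (GF rows) (ex p.KK p.pm) = ((XX p rows / p.B ^ 3 % p.B : ℕ) : ℤ) := by
  have hsum : ∀ f : List (ℕ × ℕ) → ℕ, (∀ σ, Valid p.T σ → f σ ≤ p.M) →
      (∑ s : Fin rows.length → Fin 3, if E2 (st (GF rows) s) ≤ p.KK then f (st (GF rows) s) else 0)
        < p.B := by
    intro f hf
    refine lt_of_le_of_lt ?_ hb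
    have : ∑ _s : Fin rows.length → Fin 3, p.M = 3 ^ rows.length * p.M := by simp
    rw [← this]
    apply sum_le_sum
    intro s _
    split_ifs with h
    · exact hf _ (hv s h)
    · omega
  have htab := fun (σ : List (ℕ × ℕ)) (hσ : Valid p.T σ) => hp.tab hσ
  set T : (List (ℕ × ℕ) → ℕ) → ℕ := fun f =>
    ∑ s : Fin rows.length → Fin 3, if E2 (st (GF rows) s) ≤ p.KK then f (st (GF rows) s) else 0 with hT
  have hX : XX p rows = T (fun _ => 1) + p.B * T (fun σ => (p.phi σ + p.O).toNat) +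
      p.B ^ 2 * T (fun σ => (p.pp σ).toNat) + p.B ^ 3 * T (fun σ => (p.pm σ).toNat) := by
    unfold XX
    rw [evT_main p.tab p.KK hp.hK rows hw hl, hT]
    simp only
    rw [mul_sum, mul_sum, mul_sum, ← sum_add_distrib, ← sum_add_distrib, ← sum_add_distrib]
    apply sum_congr rfl
    intro s _
    split_ifs with h
    · exact (htab _ (hv s h)).2.2.2.2.2.2
    · simp
  have b1 : T (fun _ => 1) < p.B := hsum _ (fun σ hσ => hp.hM)
  have b2 : T (fun σ => (p.phi σ + p.O).toNat) < p.B :=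
    hsum (fun σ => (p.phi σ + p.O).toNat) (fun σ hσ => by
      have := htab σ hσ; omega)
  have b3 : T (fun σ => (p.pp σ).toNat) < p.B := hsum (fun σ => (p.pp σ).toNat) (fun σ hσ => by
    have := htab σ hσ; omega)
  have b4 : T (fun σ => (p.pm σ).toNat) < p.B := hsum (fun σ => (p.pm σ).toNat) (fun σ hσ => by
    have := htab σ hσ; omega)
  obtain ⟨d1, d2, d3, d4⟩ := digits4 p.B _ _ _ _ b1 b2 b3 b4
  rw [hX, d1, d2, d3, d4, hT]
  refine ⟨?_, ?_, ?_⟩
  · simp only
    rw [Nat.cast_sum, Nat.cast_sum, mul_sum, ← sum_sub_distrib]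
    unfold SS
    apply sum_congr rfl
    intro s _
    unfold ex
    split_ifs with h
    · have := htab _ (hv s h)
      rw [Int.toNat_of_nonneg this.1]
      push_cast; ring
    · simp
  · simp only
    rw [Nat.cast_sum]
    unfold SS
    apply sum_congr rfl
    intro s _
    unfold ex
    split_ifs with h
    · have := htab _ (hv s h)
      rw [Int.toNat_of_nonneg this.2.2.1]
    · simp
  · simp only
    rw [Nat.cast_sum]
    unfold SS
    apply sum_congr rfl
    intro s _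
    unfold ex
    split_ifs with h
    · have := htab _ (hv s h)
      rw [Int.toNat_of_nonneg this.2.2.2.2.1]
    · simp

/-- the potential of the graph is small -/
def Pot (p : Par) {V : Type} [Fintype V] [DecidableEq V] (A : V → V → Bool) : Prop :=
  SS 3 A (ex p.KK p.pp) ≤ p.AA * 3 ^ Fintype.card V ∧
  SS 3 A (ex p.KK p.pm) ≤ p.AA * 3 ^ Fintype.card V

/-- the property inherited by all extensions -/
def Good (p : Par) {V : Type} [Fintype V] [DecidableEq V] (A : V → V → Bool) : Prop :=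
  Pot p A ∧ SS 3 A (ex p.KK p.phi) ≤ p.AA * 3 ^ Fintype.card V ∧
  - SS 3 A (ex p.KK p.phi) ≤ p.AA * 3 ^ Fintype.card V

theorem Pot.iso {p : Par} {V W : Type} [Fintype V] [DecidableEq V] [Fintype W] [DecidableEq W]
    {A : V → V → Bool} {B : W → W → Bool} (h : Iso A B) (hB : Pot p B) : Pot p A := by
  unfold Pot at *
  rw [SS_iso h, SS_iso h, h.card]
  exact hB

theorem Good.iso {p : Par} {V W : Type} [Fintype V] [DecidableEq V] [Fintype W] [DecidableEq W]
    {A : V → V → Bool} {B : W → W → Bool} (h : Iso A B) (hB : Good p B) : Good p A := by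
  refine ⟨Pot.iso h hB.1, ?_⟩
  rw [SS_iso h, h.card]
  exact hB.2

theorem Pot.step {p : Par} (hp : p.OK) {V : Type} [Fintype V] [DecidableEq V]
    {A : V → V → Bool} (hA : IsG A) (h : Pot p A) (N : V → Bool) (hN : ∃ v, N v = true) :
    Good p (addV A N) := by
  have hv : Val 3 p.KK p.T A := val_all hp.hc hp.h0 _ V rfl A hA
  obtain ⟨h1, h2⟩ := h
  have s1 := game_step hp.g1 hv N hN
  have s2 := game_step hp.g2 hv N hN
  have s3 := game_step hp.g3 hv N hN
  have s4 := game_step hp.g4 hv N hN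
  have e : SS 3 (addV A N) (ex p.KK (fun σ => - p.phi σ)) = - SS 3 (addV A N) (ex p.KK p.phi) := by
    unfold SS
    rw [← sum_neg_distrib]
    apply sum_congr rfl
    intro s _
    unfold ex
    split_ifs <;> simp
  rw [e] at s3
  push_cast at s1 s2 s3 s4
  unfold Good Pot
  rw [Fintype.card_option, pow_succ]
  refine ⟨⟨?_, ?_⟩, ?_, ?_⟩ <;> linarith

theorem Pot.empty {p : Par} {V : Type} [Fintype V] [DecidableEq V]
    {A : V → V → Bool} (h : Pot p A) : Pot p (addV A (fun _ => false)) := by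
  obtain ⟨h1, h2⟩ := h
  unfold Pot
  rw [SS_addV_empty, SS_addV_empty, Fintype.card_option, pow_succ]
  push_cast
  refine ⟨?_, ?_⟩ <;> linarith

end Pool.Agent.Helper95.GQ
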